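import Pool.Agent.Lib.P0036f5v2.Tree

/-!
# Divide and conquer on graphs given by decision trees

`pathT E nd V κ x y` decides whether `y` can be reached from `x` by at most `2 ^ κ` edges, where the
edge from `x` to `y` is decided by the tree `E x y` and `nd` enumerates the `V` nodes.
-/

set_option autoImplicit false

namespace Pool.Agent.P0036f5w

open Pool.Agent.P0036f5v2 Relation Classical

variable {ι α : Type}

/-- is `y` reachable from `x` by at most `2 ^ κ` edges? -/
noncomputable def pathT (E : ι → ι → DT α) (nd : ℕ → ι) (V : ℕ) : ℕ → ι → ι → DT α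
  | 0, x, y => if x = y then .ret true else E x y
  | κ + 1, x, y => .orN (fun u => (pathT E nd V κ x (nd u)).and (pathT E nd V κ (nd u) y)) V

/-- `y` is reachable from `x` by at most `k` steps -/
def RN (R : ι → ι → Prop) : ℕ → ι → ι → Prop
  | 0, x, y => x = y
  | k + 1, x, y => RN R k x y ∨ ∃ z, RN R k x z ∧ R z y

theorem RN.mono {R : ι → ι → Prop} {x y : ι} {k l : ℕ} (h : RN R k x y) (hkl : k ≤ l) :
    RN R l x y := by
  induction hkl with
  | refl => exact h
  | step _ ih => exact Or.inl ih

theorem RN.reach {R : ι → ι → Prop} {x : ι} : ∀ {k : ℕ} {y : ι}, RN R k x y → ReflTransGen R x y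
  | 0, y, h => by
    have h' : x = y := h
    rw [h']
  | k + 1, y, h => by
    rcases h with h | ⟨z, h1, h2⟩
    · exact RN.reach h
    · exact (RN.reach h1).tail h2

theorem RN.trans {R : ι → ι → Prop} {x y : ι} {k : ℕ} (h1 : RN R k x y) :
    ∀ {l : ℕ} {z : ι}, RN R l y z → RN R (k + l) x z
  | 0, z, h => by
    have h' : y = z := h
    rw [← h']
    exact h1
  | l + 1, z, h => by
    rcases h with h | ⟨u, h3, h4⟩
    · exact Or.inl (RN.trans h1 h)
    · exact Or.inr ⟨u, RN.trans h1 h3, h4⟩

theorem RN.split {R : ι → ι → Prop} {x : ι} {k : ℕ} : ∀ {l : ℕ} {y : ι}, RN R (k + l) x y →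
    ∃ z, RN R k x z ∧ RN R l z y
  | 0, y, h => ⟨y, h, rfl⟩
  | l + 1, y, h => by
    rcases h with h | ⟨u, h3, h4⟩
    · obtain ⟨z, h5, h6⟩ := RN.split h
      exact ⟨z, h5, Or.inl h6⟩
    · obtain ⟨z, h5, h6⟩ := RN.split h3
      exact ⟨z, h5, Or.inr ⟨u, h6, h4⟩⟩

/-- In a graph with at most `V` nodes reachable from `x`, at most `V` steps suffice. -/
theorem reach_RN {R : ι → ι → Prop} {x : ι} (T : Finset ι) {V : ℕ} (hT : T.card ≤ V)
    (hx : ∀ y, ReflTransGen R x y → y ∈ T) {y : ι} (hy : ReflTransGen R x y) : RN R V x y := by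
  have key : ∀ k, (∀ y, ReflTransGen R x y → RN R k x y) ∨
      k + 1 ≤ (T.filter (fun y => RN R k x y)).card := by
    intro k
    induction k with
    | zero =>
      right
      rw [Nat.zero_add, Nat.one_le_iff_ne_zero, Finset.card_ne_zero]
      exact ⟨x, Finset.mem_filter.2 ⟨hx x ReflTransGen.refl, rfl⟩⟩
    | succ k ih =>
      rcases ih with ih | ih
      · exact Or.inl fun y hy => Or.inl (ih y hy)
      · by_cases hs : ∀ y, RN R (k + 1) x y → RN R k x y
        · left
          intro y hy
          left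
          induction hy with
          | refl => exact RN.mono (k := 0) rfl (Nat.zero_le _)
          | tail _ h2 ih2 => exact hs _ (Or.inr ⟨_, ih2, h2⟩)
        · right
          push Not at hs
          obtain ⟨y, hy1, hy2⟩ := hs
          have hlt : (T.filter (fun y => RN R k x y)).card <
              (T.filter (fun y => RN R (k + 1) x y)).card := by
            refine Finset.card_lt_card ⟨?_, ?_⟩
            · intro z hz
              rw [Finset.mem_filter] at hz ⊢
              exact ⟨hz.1, Or.inl hz.2⟩
            · intro h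
              have h3 : y ∈ T.filter (fun y => RN R (k + 1) x y) :=
                Finset.mem_filter.2 ⟨hx y hy1.reach, hy1⟩
              exact hy2 (Finset.mem_filter.1 (h h3)).2
          omega
  rcases key V with h | h
  · exact h y hy
  · have := (Finset.card_filter_le T (fun y => RN R V x y)).trans hT
    omega

section

variable (E : ι → ι → DT α) (nd : ℕ → ι) (V : ℕ) (v : ℕ → α)

/-- the edge relation seen with the view `v` -/
def ER (x y : ι) : Prop := (E x y).eval v = true

theorem pathT_sound : ∀ (κ : ℕ) (x y : ι), (pathT E nd V κ x y).eval v = true →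
    ReflTransGen (ER E v) x y := by
  intro κ
  induction κ with
  | zero =>
    intro x y h
    rw [pathT] at h
    split_ifs at h with h1
    · rw [h1]
    · exact ReflTransGen.single h
  | succ κ ih =>
    intro x y h
    rw [pathT, DT.eval_orN] at h
    obtain ⟨u, -, hu⟩ := h
    rw [DT.eval_and, Bool.and_eq_true] at hu
    exact (ih _ _ hu.1).trans (ih _ _ hu.2)

theorem pathT_complete {x₀ : ι} (hN : ∀ y, ReflTransGen (ER E v) x₀ y → ∃ u < V, nd u = y) :
    ∀ (κ : ℕ) (x y : ι), ReflTransGen (ER E v) x₀ x → RN (ER E v) (2 ^ κ) x y →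
      (pathT E nd V κ x y).eval v = true := by
  intro κ
  induction κ with
  | zero =>
    intro x y _ h
    rw [pathT]
    split_ifs with h1
    · rfl
    · rcases h with h | ⟨z, h2, h3⟩
      · exact absurd h h1
      · have h2' : x = z := h2
        rw [← h2'] at h3
        exact h3
  | succ κ ih =>
    intro x y hx h
    rw [pathT, DT.eval_orN]
    rw [pow_succ, Nat.mul_two] at h
    obtain ⟨z, h1, h2⟩ := RN.split h
    have hz := hx.trans h1.reach
    obtain ⟨u, hu, rfl⟩ := hN z hz
    exact ⟨u, hu, by rw [DT.eval_and, Bool.and_eq_true]; exact ⟨ih _ _ hx h1, ih _ _ hz h2⟩⟩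

/-- correctness of `pathT` -/
theorem eval_pathT {x y : ι} (hN : ∀ y, ReflTransGen (ER E v) x y → ∃ u < V, nd u = y) {κ : ℕ}
    (hκ : V ≤ 2 ^ κ) :
    (pathT E nd V κ x y).eval v = true ↔ ReflTransGen (ER E v) x y := by
  refine ⟨pathT_sound E nd V v κ x y, fun h => ?_⟩
  refine pathT_complete E nd V v hN κ x y ReflTransGen.refl ?_
  refine (reach_RN ((Finset.range V).image nd) (V := V) ?_ ?_ h).mono hκ
  · exact Finset.card_image_le.trans (by rw [Finset.card_range])
  · intro z hz
    obtain ⟨u, hu, h2⟩ := hN z hz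
    exact Finset.mem_image.2 ⟨u, Finset.mem_range.2 hu, h2⟩

theorem nd_pathT_le [Finite α] {c : ℕ} (hc : ∀ x y, (E x y).nd ≤ c) :
    ∀ (κ : ℕ) (x y : ι), (pathT E nd V κ x y).nd ≤ (2 * V) ^ κ * c := by
  intro κ
  induction κ with
  | zero =>
    intro x y
    rw [pathT]
    split_ifs with h0
    · simp [DT.nd_ret]
    · simpa using hc x y
  | succ κ ih =>
    intro x y
    rw [pathT]
    refine (DT.nd_orN_le _ V (2 * ((2 * V) ^ κ * c)) fun u _ => ?_).trans ?_
    · refine (DT.nd_and_le _ _).trans ?_
      have h1 := ih x (nd u)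
      have h2 := ih (nd u) y
      omega
    · rw [pow_succ]
      apply le_of_eq
      ring

theorem within_pathT {D : ℕ} (hE : ∀ x y, (E x y).Within D) :
    ∀ (κ : ℕ) (x y : ι), (pathT E nd V κ x y).Within D := by
  intro κ
  induction κ with
  | zero =>
    intro x y
    rw [pathT]
    split_ifs
    · trivial
    · exact hE x y
  | succ κ ih =>
    intro x y
    rw [pathT]
    exact DT.within_orN _ _ fun u _ => DT.within_and (ih _ _) (ih _ _)

end

end Pool.Agent.P0036f5w
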