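import Pool.Agent.Lib.P0036f5w.Block
import Pool.Agent.Lib.P0036f5w.MWin

/-!
# The block program of a machine whose written symbols depend only on the letter

The input is cut into blocks of length `B = K * K + K`, `K` the number of states.  The bits written
in a block encode the transition table of the cells to the left of the preceding block, and the set
of the states in which these cells can be left for the first time.
-/

set_option autoImplicit false

namespace Pool.Agent.P0036f5w

open Pool.Agent.P0036f5v2 Relation Classical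

variable {A : Type} (M : Mach A) (f : A → A ⊕ M.W) (cv : Bool) (K : ℕ) (st : ℕ → M.Q)
  (ix : M.Q → ℕ)

/-- the move from the node `x` to the node `y` if the letter is `a` -/
def mvl (a : A) (x y : ℕ × ℕ × M.Q) : Prop :=
  ∃ d, (if x.2.1 = x.1 then mv M x.2.2 (Sym.inp a) d y.2.2
      else mvf M cv x.2.2 (if x.2.1 < x.1 then Sym.ofW (f a) else Sym.inp a) d y.2.2) ∧
    y.2.1 = (if d = true then x.2.1 + 1 else x.2.1 - 1) ∧
    y.1 = if x.2.1 = x.1 then x.1 + 1 else x.1

/-- the move from the node `x` to the node `y` on the right end-marker -/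
def mve (x y : ℕ × ℕ × M.Q) : Prop :=
  ∃ d, mv M x.2.2 Sym.rend d y.2.2 ∧ y.2.1 = (if d = true then x.2.1 + 1 else x.2.1 - 1) ∧
    y.1 = if x.2.1 = x.1 then x.1 + 1 else x.1

/-- edges of the window graph -/
noncomputable def edgeM (b0 cl : Bool) (L r : ℕ) (x y : ℕ × ℕ × M.Q) : DT (Option (A × Bool)) :=
  if x.2.1 = 0 then
    if y.2.1 = 1 ∧ y.1 = x.1 then
      if b0 = true then .ret (decide (mv M x.2.2 Sym.lend true y.2.2))
      else askbit (r - (ix x.2.2 * K + ix y.2.2))
    else .ret false
  else if x.2.1 ≤ L then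
    .ask (r + 1 - x.2.1) fun z => .ret (decide (∃ a b, z = some (a, b) ∧ mvl M f cv a x y))
  else if x.2.1 = L + 1 ∧ cl = true then .ret (decide (mve M x y))
  else .ret false

/-- the node with number `u` -/
def nodeM (u : ℕ) : ℕ × ℕ × M.Q :=
  (u / K / (2 * bl K + 2), u / K % (2 * bl K + 2), st (u % K))

/-- the number of nodes -/
def nVM : ℕ := (2 * bl K + 2) * (2 * bl K + 2) * K

/-- paths in the window graph -/
noncomputable def pathM (κ : ℕ) (b0 cl : Bool) (L r : ℕ) (x y : ℕ × ℕ × M.Q) :
    DT (Option (A × Bool)) :=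
  pathT (edgeM M f cv K ix b0 cl L r) (nodeM M K st) (nVM K) κ x y

/-- the property encoded by the bit number `b` at the boundary `i` -/
def tbitM (w : List A) (i b : ℕ) : Prop :=
  if b / K < K then TabM M f cv w i (st (b / K)) (st (b % K)) else IniM M f cv w i (st (b % K))

/-- the bit of the letter with index `i` -/
noncomputable def bitM (w : List A) (i : ℕ) : Bool :=
  decide (tbitM M f cv K st w (bl K * (i / bl K)) (i % bl K))

/-- acceptance from the node `x`, along the last `r` letters and the right end-marker -/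
noncomputable def accM (κ : ℕ) (b0 : Bool) (r : ℕ) (x : ℕ × ℕ × M.Q) : DT (Option (A × Bool)) :=
  .orN (fun y => if st y ∈ M.F then pathM M f cv K st ix κ b0 true r r x (r + 2, r + 2, st y)
    else .ret false) K

/-- the block program -/
noncomputable def mProg (κ : ℕ) : Prog A where
  nxt := fun r => if r + 1 < 2 * bl K then r + 1 else bl K
  b0 := decide (tbit0 M K st 0)
  bit := fun r =>
    if r < bl K then .ret (decide (tbit0 M K st r))
    else if (r - bl K) / K < K then
      pathM M f cv K st ix κ false false (bl K) r (bl K + 1, bl K, st ((r - bl K) / K))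
        (bl K + 1, bl K + 1, st ((r - bl K) % K))
    else .orN (fun x => (askbit (r - (K * K + x))).and
      (pathM M f cv K st ix κ false false (bl K) r (1, 1, st x)
        (bl K + 1, bl K + 1, st ((r - bl K) % K)))) K
  acc := fun r =>
    if r < bl K then accM M f cv K st ix κ true r (1, 1, M.qI)
    else .orN (fun x => (askbit (r - (K * K + x))).and
      (accM M f cv K st ix κ false r (1, 1, st x))) K

variable {M f cv K st ix}

theorem tbitM_zero (w : List A) (b : ℕ) : tbitM M f cv K st w 0 b ↔ tbit0 M K st b := by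
  unfold tbitM tbit0
  split_ifs
  · exact tabM_zero
  · exact iniM_zero

/-- the phase after `i` letters -/
theorem ph_mProg (κ : ℕ) (hK : 0 < K) (i : ℕ) :
    (mProg M f cv K st ix κ).ph i = if i < bl K then i else bl K + i % bl K := by
  rw [← ph_twoProg (M := M) (st := st) (ix := ix) κ hK i]
  induction i with
  | zero => rfl
  | succ i ih =>
    rw [Prog.ph, Prog.ph, ih]
    rfl

theorem mvf_rend {q q' : M.Q} {d : Bool} : mvf M cv q Sym.rend d q' ↔ mv M q Sym.rend d q' :=
  ⟨fun ⟨x, h, _⟩ => ⟨x, h⟩, fun ⟨x, h⟩ => ⟨x, h, fun _ _ h1 => absurd rfl h1⟩⟩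

theorem nd_edgeM_le [Finite A] (b0 cl : Bool) (L r : ℕ) (x y : ℕ × ℕ × M.Q) :
    (edgeM M f cv K ix b0 cl L r x y).nd ≤ 1 := by
  unfold edgeM
  split_ifs
  · simp [DT.nd_ret]
  · exact nd_askbit_le _
  · simp [DT.nd_ret]
  · unfold DT.nd DT.asks
    simp [DT.asks]
  · simp [DT.nd_ret]
  · simp [DT.nd_ret]

theorem within_edgeM (hix : ∀ s, ix s < K) {b0 : Bool} (cl : Bool) {L r : ℕ} (hL : L ≤ r)
    (hb : b0 = false → K * K ≤ r) (x y : ℕ × ℕ × M.Q) :
    (edgeM M f cv K ix b0 cl L r x y).Within r := by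
  unfold edgeM
  split_ifs with h1 h2 h3 h4 h5
  · trivial
  · have h6 := ix_lt hix x.2.2 y.2.2
    have h7 := hb (by simpa using h3)
    exact within_askbit (by omega) (by omega)
  · trivial
  · exact ⟨by omega, by omega, fun _ => trivial⟩
  · trivial
  · trivial

theorem eval_edgeM {w : List A} {β : ℕ → Bool} {n i L r : ℕ} {b0 cl : Bool}
    (hix : ∀ s, ix s < K) (hn : n ≤ w.length)
    (hir : i + r = n) (hL : L ≤ r) (hcl : cl = true → i + L = w.length) (h0 : b0 = true → i = 0)
    (ht : b0 = false → K * K ≤ r ∧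
      ∀ s s', β (i + (ix s * K + ix s')) = decide (TabM M f cv w i s s'))
    (x y : ℕ × ℕ × M.Q) :
    (edgeM M f cv K ix b0 cl L r x y).eval (Prog.view w β n) = true ↔
      WJ M f cv w i (if cl = true then L + 1 else L) x y := by
  unfold edgeM WJ
  by_cases h1 : x.2.1 = 0
  · rw [if_pos h1]
    have hno : ¬ (1 ≤ x.2.1 ∧ x.2.1 ≤ (if cl = true then L + 1 else L) ∧
        ∃ d, mvM M f cv w (i + x.1) (i + x.2.1) x.2.2 d y.2.2 ∧
          y.2.1 = (if d = true then x.2.1 + 1 else x.2.1 - 1) ∧
          y.1 = if x.2.1 = x.1 then x.1 + 1 else x.1) := by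
      rintro ⟨h, -⟩
      omega
    rw [or_iff_left hno]
    by_cases h2 : y.2.1 = 1 ∧ y.1 = x.1
    · rw [if_pos h2]
      by_cases h3 : b0 = true
      · rw [if_pos h3, h0 h3, tabM_zero]
        simp [DT.eval, h1, h2]
      · rw [if_neg h3]
        obtain ⟨h4, h5⟩ := ht (by simpa using h3)
        have h6 := ix_lt hix x.2.2 y.2.2
        rw [eval_askbit_view _ _ _ _ (by omega)]
        have e1 : n - (r - (ix x.2.2 * K + ix y.2.2)) = i + (ix x.2.2 * K + ix y.2.2) := by omega
        rw [e1, h5]
        simp [h1, h2]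
    · rw [if_neg h2]
      simp only [DT.eval, Bool.false_eq_true, false_iff]
      rintro ⟨-, h3, h4, -⟩
      exact h2 ⟨h3, h4⟩
  · rw [if_neg h1]
    have hno : ¬ (x.2.1 = 0 ∧ y.2.1 = 1 ∧ y.1 = x.1 ∧ TabM M f cv w i x.2.2 y.2.2) :=
      fun h => h1 h.1
    rw [or_iff_right hno]
    by_cases h2 : x.2.1 ≤ L
    · rw [if_pos h2]
      have h3 : x.2.1 ≤ (if cl = true then L + 1 else L) := by split_ifs <;> omega
      have h4 : 1 ≤ x.2.1 := by omega
      have h5 : i + x.2.1 - 1 < w.length := by omega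
      have h7 : Prog.view w β n (r + 1 - x.2.1) =
          some (w[i + x.2.1 - 1], β (i + x.2.1 - 1)) := by
        have e1 : n - (r + 1 - x.2.1) = i + x.2.1 - 1 := by omega
        simp [Prog.view, Prog.cellv, e1, List.getElem?_eq_getElem h5]
      have h6 : ∀ d, mvM M f cv w (i + x.1) (i + x.2.1) x.2.2 d y.2.2 ↔
          (if x.2.1 = x.1 then mv M x.2.2 (Sym.inp w[i + x.2.1 - 1]) d y.2.2
            else mvf M cv x.2.2 (if x.2.1 < x.1 then Sym.ofW (f w[i + x.2.1 - 1])
              else Sym.inp w[i + x.2.1 - 1]) d y.2.2) := by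
        intro d
        unfold mvM
        rw [symM_inp w (by omega) (by omega)]
        by_cases h8 : x.2.1 = x.1
        · rw [if_pos h8, if_pos ⟨by omega, by omega, by omega⟩, if_neg (by omega)]
        · rw [if_neg h8, if_neg (by omega)]
          by_cases h9 : x.2.1 < x.1
          · rw [if_pos h9, if_pos (by omega)]
          · rw [if_neg h9, if_neg (by omega)]
      simp only [DT.eval, decide_eq_true_eq]
      rw [h7]
      constructor
      · rintro ⟨a, b, h8, d, h9, h10, h11⟩
        have h12 : w[i + x.2.1 - 1] = a := congrArg Prod.fst (Option.some.inj h8)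
        exact ⟨h4, h3, d, (h6 d).2 (by rw [h12]; exact h9), h10, h11⟩
      · rintro ⟨-, -, d, h9, h10, h11⟩
        exact ⟨_, _, rfl, d, (h6 d).1 h9, h10, h11⟩
    · rw [if_neg h2]
      by_cases h3 : x.2.1 = L + 1 ∧ cl = true
      · rw [if_pos h3]
        have h4 : ∀ d, mvM M f cv w (i + x.1) (i + x.2.1) x.2.2 d y.2.2 ↔
            mv M x.2.2 Sym.rend d y.2.2 := by
          intro d
          have h5 := hcl h3.2
          have h6 : symM M f w (i + x.1) (i + x.2.1) = Sym.rend := by
            unfold symM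
            rw [if_neg (by omega), List.getElem?_eq_none (by omega)]
          unfold mvM
          rw [if_neg (by omega), h6, mvf_rend]
        simp only [DT.eval, decide_eq_true_eq, h3.2, if_true]
        unfold mve
        constructor
        · rintro ⟨d, h5, h6, h7⟩
          exact ⟨by omega, by omega, d, (h4 d).2 h5, h6, h7⟩
        · rintro ⟨-, -, d, h5, h6, h7⟩
          exact ⟨d, (h4 d).1 h5, h6, h7⟩
      · rw [if_neg h3]
        simp only [DT.eval, Bool.false_eq_true, false_iff]
        rintro ⟨-, h5, -⟩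
        apply h3
        by_cases h6 : cl = true
        · rw [if_pos h6] at h5
          exact ⟨by omega, h6⟩
        · rw [if_neg h6] at h5
          omega

theorem wj_le {w : List A} {i L : ℕ} {x y : ℕ × ℕ × M.Q}
    (hx : 1 ≤ x.1 ∧ x.1 ≤ L + 1 ∧ x.2.1 ≤ x.1)
    (h : ReflTransGen (WJ M f cv w i L) x y) : 1 ≤ y.1 ∧ y.1 ≤ L + 1 ∧ y.2.1 ≤ y.1 := by
  induction h with
  | refl => exact hx
  | @tail y z _ hyz ih =>
    obtain ⟨i1, i2, i3⟩ := ih
    rcases hyz with ⟨h1, h2, h0, h3⟩ | ⟨h1, h2, d, h3, h4, h5⟩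
    · exact ⟨by omega, by omega, by omega⟩
    · rw [h4, h5]
      split_ifs <;> refine ⟨?_, ?_, ?_⟩ <;> omega

/-- correctness of the path trees -/
theorem eval_pathM {w : List A} {β : ℕ → Bool} {n i L r : ℕ} {b0 cl : Bool}
    (hix : ∀ s, ix s < K) (hst : ∀ s, st (ix s) = s) (hn : n ≤ w.length)
    (hir : i + r = n) (hL : L ≤ r) (hcl : cl = true → i + L = w.length) (h0 : b0 = true → i = 0)
    (ht : b0 = false → K * K ≤ r ∧
      ∀ s s', β (i + (ix s * K + ix s')) = decide (TabM M f cv w i s s'))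
    (hr : L < 2 * bl K) {κ : ℕ} (hκ : nVM K ≤ 2 ^ κ) {x y : ℕ × ℕ × M.Q}
    (hx : 1 ≤ x.1 ∧ x.1 ≤ L + 1 ∧ x.2.1 ≤ x.1) :
    (pathM M f cv K st ix κ b0 cl L r x y).eval (Prog.view w β n) = true ↔
      ReflTransGen (WJ M f cv w i (if cl = true then L + 1 else L)) x y := by
  have hER : ER (edgeM M f cv K ix b0 cl L r) (Prog.view w β n) =
      WJ M f cv w i (if cl = true then L + 1 else L) := by
    funext x y
    exact propext (eval_edgeM hix hn hir hL hcl h0 ht x y)
  unfold pathM
  rw [eval_pathT (V := nVM K) (κ := κ) (v := Prog.view w β n) _ _ ?_ hκ, hER]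
  intro z hz
  rw [hER] at hz
  have h1 : 1 ≤ z.1 ∧ z.1 ≤ (if cl = true then L + 1 else L) + 1 ∧ z.2.1 ≤ z.1 := by
    refine wj_le ?_ hz
    refine ⟨hx.1, ?_, hx.2.2⟩
    have := hx.2.1
    split_ifs <;> omega
  obtain ⟨i1, i2, i3⟩ := h1
  have h2 : z.1 < 2 * bl K + 2 := by
    split_ifs at i2 <;> omega
  have h2' : z.2.1 < 2 * bl K + 2 := by omega
  have h3 := hix z.2.2
  refine ⟨(z.1 * (2 * bl K + 2) + z.2.1) * K + ix z.2.2, ?_, ?_⟩
  · unfold nVM
    have h4 : z.1 * (2 * bl K + 2) + z.2.1 < (2 * bl K + 2) * (2 * bl K + 2) := by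
      calc z.1 * (2 * bl K + 2) + z.2.1 < z.1 * (2 * bl K + 2) + (2 * bl K + 2) := by omega
        _ = (z.1 + 1) * (2 * bl K + 2) := by ring
        _ ≤ (2 * bl K + 2) * (2 * bl K + 2) := Nat.mul_le_mul_right _ h2
    calc (z.1 * (2 * bl K + 2) + z.2.1) * K + ix z.2.2 <
          (z.1 * (2 * bl K + 2) + z.2.1) * K + K := by omega
      _ = (z.1 * (2 * bl K + 2) + z.2.1 + 1) * K := by ring
      _ ≤ (2 * bl K + 2) * (2 * bl K + 2) * K := Nat.mul_le_mul_right _ h4
  · unfold nodeM
    have h4 : ((z.1 * (2 * bl K + 2) + z.2.1) * K + ix z.2.2) / K =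
        z.1 * (2 * bl K + 2) + z.2.1 := by
      rw [Nat.mul_comm _ K, Nat.mul_add_div (by omega), Nat.div_eq_of_lt h3, Nat.add_zero]
    have h5 : ((z.1 * (2 * bl K + 2) + z.2.1) * K + ix z.2.2) % K = ix z.2.2 := by
      rw [Nat.mul_comm _ K, Nat.mul_add_mod, Nat.mod_eq_of_lt h3]
    have h6 : (z.1 * (2 * bl K + 2) + z.2.1) / (2 * bl K + 2) = z.1 := by
      rw [Nat.mul_comm z.1, Nat.mul_add_div (by omega), Nat.div_eq_of_lt h2', Nat.add_zero]
    have h7 : (z.1 * (2 * bl K + 2) + z.2.1) % (2 * bl K + 2) = z.2.1 := by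
      rw [Nat.mul_comm z.1, Nat.mul_add_mod, Nat.mod_eq_of_lt h2']
    rw [h4, h5, h6, h7, hst]

theorem eval_accM {w : List A} {β : ℕ → Bool} {i r : ℕ} {b0 : Bool}
    (hix : ∀ s, ix s < K) (hst : ∀ s, st (ix s) = s)
    (hir : i + r = w.length) (h0 : b0 = true → i = 0)
    (ht : b0 = false → K * K ≤ r ∧
      ∀ s s', β (i + (ix s * K + ix s')) = decide (TabM M f cv w i s s'))
    (hr : r < 2 * bl K) {κ : ℕ} (hκ : nVM K ≤ 2 ^ κ) (s : M.Q) :
    (accM M f cv K st ix κ b0 r (1, 1, s)).eval (Prog.view w β w.length) = true ↔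
      ∃ g ∈ M.F, ReflTransGen (WJ M f cv w i (r + 1)) (1, 1, s) (r + 2, r + 2, g) := by
  have key : ∀ g, (pathM M f cv K st ix κ b0 true r r (1, 1, s) (r + 2, r + 2, g)).eval
      (Prog.view w β w.length) = true ↔
        ReflTransGen (WJ M f cv w i (r + 1)) (1, 1, s) (r + 2, r + 2, g) := by
    intro g
    rw [eval_pathM hix hst le_rfl hir le_rfl (fun _ => hir) h0 ht hr hκ
      ⟨by show 1 ≤ 1; omega, by show 1 ≤ r + 1; omega, by show 1 ≤ 1; omega⟩]
    simp
  unfold accM
  rw [DT.eval_orN]
  constructor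
  · rintro ⟨y, hy, h⟩
    split_ifs at h with h1
    · exact ⟨_, h1, (key _).1 h⟩
    · simp [DT.eval] at h
  · rintro ⟨g, hg, h⟩
    refine ⟨ix g, hix g, ?_⟩
    rw [hst, if_pos hg]
    exact (key g).2 h

theorem within_pathM (hix : ∀ s, ix s < K) (κ : ℕ) {b0 : Bool} (cl : Bool) {L r : ℕ} (hL : L ≤ r)
    (hb : b0 = false → K * K ≤ r) (x y : ℕ × ℕ × M.Q) :
    (pathM M f cv K st ix κ b0 cl L r x y).Within r :=
  within_pathT _ _ _ (fun x y => within_edgeM hix cl hL hb x y) κ x y

theorem within_accM (hix : ∀ s, ix s < K) (κ : ℕ) {b0 : Bool} {r : ℕ}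
    (hb : b0 = false → K * K ≤ r) (x : ℕ × ℕ × M.Q) :
    (accM M f cv K st ix κ b0 r x).Within r := by
  refine DT.within_orN _ _ fun y _ => ?_
  split_ifs
  · exact within_pathM hix κ true le_rfl hb _ _
  · trivial

theorem within_bitM (hix : ∀ s, ix s < K) (κ r : ℕ) :
    ((mProg M f cv K st ix κ).bit r).Within r := by
  simp only [mProg]
  split_ifs with h h1
  · trivial
  · exact within_pathM hix κ false (by omega) (fun _ => by unfold bl at h; omega) _ _
  · refine DT.within_orN _ _ fun x hx => DT.within_and ?_ ?_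
    · unfold bl at h
      exact within_askbit (by omega) (by omega)
    · exact within_pathM hix κ false (by omega) (fun _ => by unfold bl at h; omega) _ _

theorem within_accMP (hix : ∀ s, ix s < K) (κ r : ℕ) :
    ((mProg M f cv K st ix κ).acc r).Within r := by
  simp only [mProg]
  split_ifs with h
  · exact within_accM hix κ (fun h => by simp at h) _
  · refine DT.within_orN _ _ fun x hx => DT.within_and ?_ ?_
    · unfold bl at h
      exact within_askbit (by omega) (by omega)
    · exact within_accM hix κ (fun _ => by unfold bl at h; omega) _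

theorem nd_pathM_le [Finite A] (κ : ℕ) (b0 cl : Bool) (L r : ℕ) (x y : ℕ × ℕ × M.Q) :
    (pathM M f cv K st ix κ b0 cl L r x y).nd ≤ (2 * nVM K) ^ κ := by
  have := nd_pathT_le (edgeM M f cv K ix b0 cl L r) (nodeM M K st) (nVM K) (c := 1)
    (fun x y => nd_edgeM_le b0 cl L r x y) κ x y
  rwa [Nat.mul_one] at this

theorem nd_accM_le [Finite A] (κ : ℕ) (b0 : Bool) (r : ℕ) (x : ℕ × ℕ × M.Q) :
    (accM M f cv K st ix κ b0 r x).nd ≤ K * (2 * nVM K) ^ κ := by
  refine DT.nd_orN_le _ K _ fun y _ => ?_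
  split_ifs
  · exact nd_pathM_le κ _ _ _ _ _ _
  · simp [DT.nd_ret]

theorem nd_bitM_le [Finite A] (hK : 0 < K) (κ r : ℕ) :
    ((mProg M f cv K st ix κ).bit r).nd ≤ K * (1 + (2 * nVM K) ^ κ) := by
  simp only [mProg]
  split_ifs with h h1
  · simp [DT.nd_ret]
  · refine (nd_pathM_le κ _ _ _ _ _ _).trans ?_
    calc (2 * nVM K) ^ κ ≤ 1 + (2 * nVM K) ^ κ := by omega
      _ ≤ K * (1 + (2 * nVM K) ^ κ) := Nat.le_mul_of_pos_left _ hK
  · refine DT.nd_orN_le _ K _ fun x _ => (DT.nd_and_le _ _).trans ?_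
    exact Nat.add_le_add (nd_askbit_le _) (nd_pathM_le κ _ _ _ _ _ _)

theorem nd_accMP_le [Finite A] (hK : 0 < K) (κ r : ℕ) :
    ((mProg M f cv K st ix κ).acc r).nd ≤ K * (1 + K * (2 * nVM K) ^ κ) := by
  simp only [mProg]
  split_ifs with h
  · refine (nd_accM_le κ _ _ _).trans ?_
    calc K * (2 * nVM K) ^ κ ≤ 1 + K * (2 * nVM K) ^ κ := by omega
      _ ≤ K * (1 + K * (2 * nVM K) ^ κ) := Nat.le_mul_of_pos_left _ hK
  · refine DT.nd_orN_le _ K _ fun x _ => (DT.nd_and_le _ _).trans ?_
    exact Nat.add_le_add (nd_askbit_le _) (nd_accM_le κ _ _ _)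

/-- The machine of the block program accepts the language of `M`. -/
theorem mProg_lang (hf : ∀ q a, ∀ x ∈ M.δ q (Sym.inp a), x.2.1 = f a) (cv' : Bool) (hK : 0 < K)
    (hix : ∀ s, ix s < K) (hst : ∀ s, st (ix s) = s) {κ : ℕ} (hκ : nVM K ≤ 2 ^ κ) :
    (mProg M f cv K st ix κ).mach.lang cv' = M.lang cv := by
  have hN : 0 < bl K := by unfold bl; omega
  ext w
  -- the stored table
  have hq : ∀ i b, b < bl K → bl K ≤ i →
      bitM M f cv K st w (bl K * (i / bl K - 1) + b) =
        decide (tbitM M f cv K st w (bl K * (i / bl K - 1)) b) := by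
    intro i b hb _
    unfold bitM
    rw [Nat.mul_add_mod, Nat.mod_eq_of_lt hb, Nat.mul_add_div hN, Nat.div_eq_of_lt hb,
      Nat.add_zero]
  have htab : ∀ i, bl K ≤ i → ∀ s s',
      bitM M f cv K st w (bl K * (i / bl K - 1) + (ix s * K + ix s')) =
        decide (TabM M f cv w (bl K * (i / bl K - 1)) s s') := by
    intro i hi s s'
    have h1 := ix_lt hix s s'
    have h2 := hix s'
    rw [hq i _ (by unfold bl; omega) hi]
    have h3 : (ix s * K + ix s') / K = ix s := by
      rw [Nat.mul_comm, Nat.mul_add_div hK, Nat.div_eq_of_lt h2, Nat.add_zero]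
    have h4 : (ix s * K + ix s') % K = ix s' := by
      rw [Nat.mul_comm, Nat.mul_add_mod, Nat.mod_eq_of_lt h2]
    unfold tbitM
    rw [h3, h4, if_pos (hix s), hst, hst]
  have hini : ∀ i, bl K ≤ i → ∀ x, x < K →
      bitM M f cv K st w (bl K * (i / bl K - 1) + (K * K + x)) =
        decide (IniM M f cv w (bl K * (i / bl K - 1)) (st x)) := by
    intro i hi x hx
    rw [hq i _ (by unfold bl; omega) hi]
    have h3 : (K * K + x) / K = K := by
      rw [Nat.mul_add_div hK, Nat.div_eq_of_lt hx, Nat.add_zero]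
    have h4 : (K * K + x) % K = x := by
      rw [Nat.mul_add_mod, Nat.mod_eq_of_lt hx]
    unfold tbitM
    rw [h3, h4, if_neg (lt_irrefl K)]
  have hblock : ∀ i x : ℕ, i ≤ w.length → bl K ≤ i → x < K →
      (askbit (bl K + i % bl K - (K * K + x))).eval (Prog.view w (bitM M f cv K st w) i) =
        decide (IniM M f cv w (bl K * (i / bl K - 1)) (st x)) := by
    intro i x hi hNi hx
    obtain ⟨a1, a2, a3⟩ := block_arith (bl K) hN i hNi
    have hx' : K * K + x < bl K := by unfold bl; omega
    rw [eval_askbit_view _ _ _ _ (by omega)]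
    have e1 : i - (bl K + i % bl K - (K * K + x)) = bl K * (i / bl K - 1) + (K * K + x) := by
      omega
    rw [e1, hini i hNi x hx]
  rw [Prog.mem_lang _ cv' w (bitM M f cv K st w)]
  · -- acceptance
    rw [ph_mProg κ hK, mem_lang_iffM (cv := cv) hf w]
    by_cases hlt : w.length < bl K
    · rw [if_pos hlt]
      simp only [mProg]
      rw [if_pos hlt, eval_accM hix hst (i := 0) (by omega) (fun _ => rfl)
        (fun h => by simp at h) (by omega) hκ]
      have h1 : ∀ g, IniM M f cv w (w.length + 1) g ↔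
          ReflTransGen (WJ M f cv w 0 (w.length + 1)) (1, 1, M.qI)
            (w.length + 2, w.length + 2, g) := by
        intro g
        have h2 := iniM_window (M := M) (f := f) (cv := cv) (w := w) (i := 0)
          (L := w.length + 1) (s' := g) (by omega)
        rw [Nat.zero_add] at h2
        rw [h2]
        constructor
        · rintro ⟨s0, h3, h4⟩
          rw [iniM_zero] at h3
          rw [h3] at h4
          exact h4
        · intro h4
          exact ⟨M.qI, iniM_zero.2 rfl, h4⟩
      simp only [h1]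
    · rw [if_neg hlt]
      push Not at hlt
      have hm := Nat.mod_lt w.length hN
      obtain ⟨a1, a2, a3⟩ := block_arith (bl K) hN w.length hlt
      have hr : ¬ (bl K + w.length % bl K < bl K) := by omega
      simp only [mProg]
      rw [if_neg hr, DT.eval_orN]
      have hK2 : K * K ≤ bl K + w.length % bl K := by
        have : K * K ≤ bl K := by unfold bl; omega
        omega
      have hacc : ∀ s, (accM M f cv K st ix κ false (bl K + w.length % bl K) (1, 1, s)).eval
          (Prog.view w (bitM M f cv K st w) w.length) = true ↔ ∃ g ∈ M.F,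
            ReflTransGen (WJ M f cv w (bl K * (w.length / bl K - 1))
              (bl K + w.length % bl K + 1)) (1, 1, s)
              (bl K + w.length % bl K + 2, bl K + w.length % bl K + 2, g) := by
        intro s
        exact eval_accM hix hst (by omega) (fun h => by simp at h)
          (fun _ => ⟨hK2, htab _ hlt⟩) (by omega) hκ s
      have hwin : ∀ g, IniM M f cv w (w.length + 1) g ↔
          ∃ s0, IniM M f cv w (bl K * (w.length / bl K - 1)) s0 ∧
            ReflTransGen (WJ M f cv w (bl K * (w.length / bl K - 1))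
              (bl K + w.length % bl K + 1)) (1, 1, s0)
              (bl K + w.length % bl K + 2, bl K + w.length % bl K + 2, g) := by
        intro g
        have h2 := iniM_window (M := M) (f := f) (cv := cv) (w := w)
          (i := bl K * (w.length / bl K - 1))
          (L := bl K + w.length % bl K + 1) (s' := g) (by omega)
        have e1 : bl K * (w.length / bl K - 1) + (bl K + w.length % bl K + 1) = w.length + 1 := by
          omega
        rw [e1] at h2
        exact h2
      constructor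
      · rintro ⟨x, hx, h⟩
        rw [DT.eval_and, Bool.and_eq_true, hblock _ _ le_rfl hlt hx, decide_eq_true_eq,
          hacc] at h
        obtain ⟨g, hg, h'⟩ := h.2
        exact ⟨g, hg, (hwin g).2 ⟨_, h.1, h'⟩⟩
      · rintro ⟨g, hg, h⟩
        obtain ⟨s0, h1, h2⟩ := (hwin g).1 h
        refine ⟨ix s0, hix s0, ?_⟩
        rw [DT.eval_and, Bool.and_eq_true, hblock _ _ le_rfl hlt (hix s0), decide_eq_true_eq,
          hacc, hst]
        exact ⟨h1, g, hg, h2⟩
  · -- the initial bit
    show bitM M f cv K st w 0 = decide (tbit0 M K st 0)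
    unfold bitM
    rw [Nat.zero_div, Nat.mul_zero, Nat.zero_mod]
    exact decide_eq_decide.2 (tbitM_zero w 0)
  · -- the bits
    intro i hi
    rw [ph_mProg κ hK]
    by_cases hlt : i + 1 < bl K
    · rw [if_pos hlt]
      simp only [mProg]
      rw [if_pos hlt]
      refine ⟨trivial, ?_⟩
      show decide (tbit0 M K st (i + 1)) = bitM M f cv K st w (i + 1)
      unfold bitM
      rw [Nat.mod_eq_of_lt hlt, Nat.div_eq_of_lt hlt, Nat.mul_zero]
      exact decide_eq_decide.2 (tbitM_zero w (i + 1)).symm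
    · rw [if_neg hlt]
      push Not at hlt
      have hm := Nat.mod_lt (i + 1) hN
      obtain ⟨a1, a2, a3⟩ := block_arith (bl K) hN (i + 1) hlt
      have hr : ¬ (bl K + (i + 1) % bl K < bl K) := by omega
      have hK2 : K * K ≤ bl K + (i + 1) % bl K := by
        have : K * K ≤ bl K := by unfold bl; omega
        omega
      refine ⟨(within_bitM hix κ _).mono a1, ?_⟩
      simp only [mProg]
      rw [if_neg hr]
      have hsub : bl K + (i + 1) % bl K - bl K = (i + 1) % bl K := by omega
      rw [hsub]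
      have hpath : ∀ x y : ℕ × ℕ × M.Q, 1 ≤ x.1 ∧ x.1 ≤ bl K + 1 ∧ x.2.1 ≤ x.1 →
          ((pathM M f cv K st ix κ false false (bl K) (bl K + (i + 1) % bl K) x y).eval
            (Prog.view w (bitM M f cv K st w) (i + 1)) = true ↔
          ReflTransGen (WJ M f cv w (bl K * ((i + 1) / bl K - 1)) (bl K)) x y) := by
        intro x y hx
        have := eval_pathM (b0 := false) (cl := false) (κ := κ) (x := x) (y := y)
          (i := bl K * ((i + 1) / bl K - 1)) (L := bl K) (r := bl K + (i + 1) % bl K)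
          (n := i + 1) (w := w) (β := bitM M f cv K st w) hix hst hi (by omega) (by omega)
          (fun h => by simp at h) (fun h => by simp at h) (fun _ => ⟨hK2, htab _ hlt⟩)
          (by omega) hκ hx
        simpa using this
      have hbw : bitM M f cv K st w (i + 1) =
          decide (tbitM M f cv K st w (bl K * ((i + 1) / bl K)) ((i + 1) % bl K)) := rfl
      rw [Bool.eq_iff_iff, hbw, decide_eq_true_eq]
      unfold tbitM
      have hx1 : 1 ≤ 1 ∧ 1 ≤ bl K + 1 ∧ 1 ≤ 1 := ⟨le_rfl, by omega, le_rfl⟩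
      by_cases hrow : (i + 1) % bl K / K < K
      · rw [if_pos hrow, if_pos hrow, ← a3, tabM_window (by omega) (by omega)]
        exact hpath _ _ ⟨by show 1 ≤ bl K + 1; omega, le_rfl, by show bl K ≤ bl K + 1; omega⟩
      · rw [if_neg hrow, if_neg hrow, ← a3, iniM_window (by omega), DT.eval_orN]
        constructor
        · rintro ⟨x, hx, h⟩
          rw [DT.eval_and, Bool.and_eq_true, hblock _ _ hi hlt hx, decide_eq_true_eq] at h
          exact ⟨_, h.1, (hpath _ _ hx1).1 h.2⟩
        · rintro ⟨s0, h1, h2⟩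
          refine ⟨ix s0, hix s0, ?_⟩
          rw [DT.eval_and, Bool.and_eq_true, hblock _ _ hi hlt (hix s0), decide_eq_true_eq, hst]
          exact ⟨h1, (hpath _ _ hx1).2 h2⟩
  · -- the acceptance tree looks only at visited cells
    rw [ph_mProg κ hK]
    by_cases hlt : w.length < bl K
    · rw [if_pos hlt]
      exact within_accMP hix κ _
    · rw [if_neg hlt]
      push Not at hlt
      obtain ⟨a1, a2, a3⟩ := block_arith (bl K) hN w.length hlt
      exact (within_accMP hix κ _).mono a1

end Pool.Agent.P0036f5w
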