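import Mathlib

/-!
# Numerical estimates
-/

set_option autoImplicit false

namespace Pool.Agent.P0036f5w

theorem num_prod {K X P V : ℕ} (hK : K ≤ X) (hX : 1 ≤ X) (hP : 1 ≤ P) (hV : V ≤ P) :
    K * (1 + V) + K * (1 + K * V) ≤ 4 * (X * X) * P := by
  have h1 : K * (1 + V) ≤ X * (X * (2 * P)) :=
    Nat.mul_le_mul hK ((show 1 + V ≤ 2 * P by omega).trans (Nat.le_mul_of_pos_left _ hX))
  have h2 : K * V ≤ X * P := Nat.mul_le_mul hK hV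
  have h3 : 1 ≤ X * P := Nat.mul_pos hX hP
  have h4 : K * (1 + K * V) ≤ X * (2 * (X * P)) := Nat.mul_le_mul hK (by omega)
  calc K * (1 + V) + K * (1 + K * V) ≤ X * (X * (2 * P)) + X * (2 * (X * P)) :=
        Nat.add_le_add h1 h4
    _ = 4 * (X * X) * P := by ring

theorem num_size {B X P a : ℕ} (hB : B ≤ 4 * (X * X)) (hX : 1 ≤ X) (hP : 1 ≤ P) (ha : a ≤ X) :
    (B * 2 + 2 * (B * ((2 + B * (4 * (X * X) * P)) * (B + 3))) + 1) * (15 * a + 17) +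
      (4 * a + 4) ≤ 262144 * (X ^ 9 * P) := by
  have hXX : 1 ≤ X * X := Nat.mul_pos hX hX
  have h1 : B * (4 * (X * X) * P) ≤ 16 * (X ^ 4 * P) := by
    calc B * (4 * (X * X) * P) ≤ 4 * (X * X) * (4 * (X * X) * P) := Nat.mul_le_mul_right _ hB
      _ = 16 * (X ^ 4 * P) := by ring
  have p4 : 1 ≤ X ^ 4 * P := Nat.mul_pos (pow_pos hX _) hP
  have h2 : 2 + B * (4 * (X * X) * P) ≤ 18 * (X ^ 4 * P) := by omega
  have h3 : B + 3 ≤ 7 * (X * X) := by omega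
  have h4 : B * ((2 + B * (4 * (X * X) * P)) * (B + 3)) ≤ 504 * (X ^ 8 * P) := by
    calc B * ((2 + B * (4 * (X * X) * P)) * (B + 3)) ≤
          4 * (X * X) * (18 * (X ^ 4 * P) * (7 * (X * X))) :=
          Nat.mul_le_mul hB (Nat.mul_le_mul h2 h3)
      _ = 504 * (X ^ 8 * P) := by ring
  have h5 : X * X ≤ X ^ 8 * P := by
    calc X * X = (X * X) * 1 := by ring
      _ ≤ (X * X) * (X ^ 6 * P) := Nat.mul_le_mul_left _ (Nat.mul_pos (pow_pos hX _) hP)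
      _ = X ^ 8 * P := by ring
  have p8 : 1 ≤ X ^ 8 * P := Nat.mul_pos (pow_pos hX _) hP
  have h6 : B * 2 + 2 * (B * ((2 + B * (4 * (X * X) * P)) * (B + 3))) + 1 ≤
      1017 * (X ^ 8 * P) := by
    have h7 : B * 2 ≤ 8 * (X ^ 8 * P) := by
      calc B * 2 ≤ 4 * (X * X) * 2 := Nat.mul_le_mul_right _ hB
        _ = 8 * (X * X) := by ring
        _ ≤ 8 * (X ^ 8 * P) := Nat.mul_le_mul_left _ h5
    omega
  have h8 : 15 * a + 17 ≤ 32 * X := by omega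
  have h9 : X ≤ X ^ 9 * P := by
    calc X = X * 1 := by ring
      _ ≤ X * (X ^ 8 * P) := Nat.mul_le_mul_left _ p8
      _ = X ^ 9 * P := by ring
  calc _ ≤ 1017 * (X ^ 8 * P) * (32 * X) + 8 * (X ^ 9 * P) := by
        refine Nat.add_le_add (Nat.mul_le_mul h6 h8) ?_
        calc 4 * a + 4 ≤ 8 * X := by omega
          _ ≤ 8 * (X ^ 9 * P) := Nat.mul_le_mul_left _ h9
    _ = 32552 * (X ^ 9 * P) := by ring
    _ ≤ 262144 * (X ^ 9 * P) := Nat.mul_le_mul_right _ (by norm_num)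

theorem num_final (l : ℕ) : 262144 * ((2 ^ l) ^ 9 * 2 ^ ((3 * l + 4) ^ 2)) =
    2 ^ (9 * l ^ 2 + 33 * l + 34) := by
  rw [show (262144 : ℕ) = 2 ^ 18 by norm_num, ← pow_mul, ← pow_add, ← pow_add]
  congr 1
  ring

theorem num_pow {l V : ℕ} (hV : V ≤ 6 * (2 ^ l * 2 ^ l * 2 ^ l)) :
    V ≤ 2 ^ (3 * l + 4) ∧ (2 * V) ^ (3 * l + 4) ≤ 2 ^ ((3 * l + 4) ^ 2) := by
  have h1 : 2 ^ (3 * l + 4) = 16 * (2 ^ l * 2 ^ l * 2 ^ l) := by
    rw [pow_add, mul_comm 3 l, pow_mul]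
    generalize 2 ^ l = X
    norm_num
    ring
  have h2 : 2 * V ≤ 2 ^ (3 * l + 4) := by
    rw [h1]
    generalize 2 ^ l * 2 ^ l * 2 ^ l = Y at *
    omega
  refine ⟨le_trans (Nat.le_mul_of_pos_left _ (by norm_num)) h2, ?_⟩
  calc (2 * V) ^ (3 * l + 4) ≤ (2 ^ (3 * l + 4)) ^ (3 * l + 4) := Nat.pow_le_pow_left h2 _
    _ = 2 ^ ((3 * l + 4) ^ 2) := by rw [← pow_mul, sq]

end Pool.Agent.P0036f5w
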