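import Pool.Agent.Lib.P0036f5w.Det
import Pool.Agent.Lib.P0036f5w.MBlock
import Pool.Agent.Lib.P0036f5w.Num

/-!
# Machines whose written symbols depend only on the letter: the quasi-polynomial bound
-/

set_option autoImplicit false

namespace Pool.Agent.P0036f5w

open Pool.Agent.P0036f5v2 Classical

theorem num_finalM (l : ℕ) : 262144 * ((2 ^ l) ^ 9 * 2 ^ ((5 * l + 7) ^ 2)) =
    2 ^ (25 * l ^ 2 + 79 * l + 67) := by
  rw [show (262144 : ℕ) = 2 ^ 18 by norm_num, ← pow_mul, ← pow_add, ← pow_add]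
  congr 1
  ring

theorem num_powM {l V : ℕ} (hV : V ≤ 36 * (2 ^ l) ^ 5) :
    V ≤ 2 ^ (5 * l + 7) ∧ (2 * V) ^ (5 * l + 7) ≤ 2 ^ ((5 * l + 7) ^ 2) := by
  have h1 : 2 ^ (5 * l + 7) = 128 * (2 ^ l) ^ 5 := by
    rw [pow_add, mul_comm 5 l, pow_mul]
    generalize 2 ^ l = X
    norm_num
    ring
  have h2 : 2 * V ≤ 2 ^ (5 * l + 7) := by
    rw [h1]
    generalize (2 ^ l) ^ 5 = Y at *
    omega
  refine ⟨le_trans (Nat.le_mul_of_pos_left _ (by norm_num)) h2, ?_⟩
  calc (2 * V) ^ (5 * l + 7) ≤ (2 ^ (5 * l + 7)) ^ (5 * l + 7) := Nat.pow_le_pow_left h2 _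
    _ = 2 ^ ((5 * l + 7) ^ 2) := by rw [← pow_mul, sq]

theorem num_blM {K X : ℕ} (hK : K ≤ X) (hX : 1 ≤ X) :
    2 * bl K ≤ 4 * (X * X) ∧ nVM K ≤ 36 * X ^ 5 := by
  have h1 : K * K ≤ X * X := Nat.mul_le_mul hK hK
  have h2 : K ≤ X * X := hK.trans (Nat.le_mul_of_pos_right _ hX)
  have h3 : 1 ≤ X * X := Nat.mul_pos hX hX
  have h4 : bl K ≤ 2 * (X * X) := by unfold bl; omega
  refine ⟨by omega, ?_⟩
  unfold nVM
  have h5 : 2 * bl K + 2 ≤ 6 * (X * X) := by omega
  calc (2 * bl K + 2) * (2 * bl K + 2) * K ≤ (6 * (X * X)) * (6 * (X * X)) * X :=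
        Nat.mul_le_mul (Nat.mul_le_mul h5 h5) hK
    _ = 36 * X ^ 5 := by ring

/-- Determinisation of a machine whose written symbols depend only on the letter: the size in terms
of the number of states. -/
theorem exists_det_auxM {A : Type} [Finite A] (M : Mach A) [Finite M.Q] (hM : LetterDet M)
    (cv : Bool) (K κ T : ℕ) (hKe : Nat.card M.Q = K) (hκ : nVM K ≤ 2 ^ κ)
    (hT : K * (1 + (2 * nVM K) ^ κ) + K * (1 + K * (2 * nVM K) ^ κ) ≤ T) :
    ∃ D : LA A, D.toMach.Det ∧ (∀ cv', D.toMach.lang cv' = M.lang cv) ∧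
      D.toMach.size ≤ (2 * bl K * 2 + 2 * (2 * bl K *
        ((2 + 2 * bl K * T) * (2 * bl K + 3))) + 1) *
        (15 * Nat.card A + 17) + (4 * Nat.card A + 4) := by
  obtain ⟨f, hf⟩ := hM
  have hK : 0 < K := by
    rw [← hKe]
    exact Nat.card_pos_iff.2 ⟨⟨M.qI⟩, inferInstance⟩
  let e : M.Q ≃ Fin K := (Finite.equivFin _).trans (finCongr hKe)
  let st : ℕ → M.Q := fun x => if h : x < K then e.symm ⟨x, h⟩ else M.qI
  let ix : M.Q → ℕ := fun s => (e s).1
  have hix : ∀ s, ix s < K := fun s => (e s).2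
  have hst : ∀ s, st (ix s) = s := by
    intro s
    simp [st, ix]
  have hb0 : 0 < 2 * bl K := by unfold bl; omega
  obtain ⟨D, hD, hL, hs⟩ := exists_det_of_prog (mProg M f cv K st ix κ) (2 * bl K) (2 * bl K)
    T hb0
    (fun r hr => by
      show (if r + 1 < 2 * bl K then r + 1 else bl K) < 2 * bl K
      split_ifs with h
      · exact h
      · omega)
    (fun r hr => (within_bitM hix κ r).mono (by omega))
    (fun r hr => (within_accMP hix κ r).mono (by omega))
    (fun r _ => (Nat.add_le_add (nd_bitM_le (M := M) (f := f) (cv := cv) (st := st) (ix := ix)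
      hK κ r) (nd_accMP_le (M := M) (f := f) (cv := cv) (st := st) (ix := ix) hK κ r)).trans hT)
  exact ⟨D, hD, fun cv' => by rw [hL cv', mProg_lang hf cv' hK hix hst hκ], hs⟩

/-- Determinisation of a machine whose written symbols depend only on the letter, with at most
`2 ^ l` states and letters. -/
theorem exists_det_of_letterDet {A : Type} [Finite A] (M : Mach A) [Finite M.Q]
    (hM : LetterDet M) (cv : Bool)
    (l : ℕ) (hl : Nat.card M.Q ≤ 2 ^ l) (ha : Nat.card A ≤ 2 ^ l) :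
    ∃ D : LA A, D.toMach.Det ∧ (∀ cv', D.toMach.lang cv' = M.lang cv) ∧
      D.toMach.size ≤ 2 ^ (25 * l ^ 2 + 79 * l + 67) := by
  have hX1 : 1 ≤ 2 ^ l := Nat.one_le_two_pow
  obtain ⟨hB, hV⟩ := num_blM hl hX1
  obtain ⟨hκ, hpow⟩ := num_powM hV
  have hP1 : 1 ≤ 2 ^ ((5 * l + 7) ^ 2) := Nat.one_le_two_pow
  obtain ⟨D, hD, hL, hs⟩ := exists_det_auxM M hM cv (Nat.card M.Q) (5 * l + 7)
    (4 * (2 ^ l * 2 ^ l) * 2 ^ ((5 * l + 7) ^ 2)) rfl hκ (num_prod hl hX1 hP1 hpow)
  refine ⟨D, hD, hL, hs.trans ?_⟩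
  rw [← num_finalM]
  exact num_size hB hX1 hP1 ha

/-- A machine of size at most `n` whose written symbols depend only on the letter has an equivalent
deterministic 1-limited automaton of size at most `n ^ (25 log₂ n + 215)`. -/
theorem upper_letterDet {A : Type} [Finite A] (M : LA A) (hM : LetterDet M.toMach) (cv : Bool)
    (n : ℕ) (hn : 4 ≤ n) (hs : M.toMach.size ≤ n) :
    ∃ D : LA A, D.toMach.Det ∧ (∀ cv', D.toMach.lang cv' = M.toMach.lang cv) ∧
      D.toMach.size ≤ n ^ (25 * Nat.log 2 n + 215) := by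
  have fQ := M.finQ
  have fW := M.finW
  have hsize : Nat.card M.Q + Nat.card A ≤ n := by
    refine le_trans ?_ hs
    unfold Mach.size
    omega
  set m := Nat.log 2 n with hm
  have h1 : n < 2 ^ (m + 1) := Nat.lt_pow_succ_log_self (by norm_num) n
  have h2 : 2 ^ m ≤ n := Nat.pow_log_le_self 2 (by omega)
  have h3 : 2 ≤ m := by
    rw [hm]
    exact (Nat.le_log_iff_pow_le (by norm_num) (by omega)).2 (by omega)
  obtain ⟨D, hD, hL, hsz⟩ := exists_det_of_letterDet M.toMach hM cv (m + 1) (by omega) (by omega)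
  refine ⟨D, hD, hL, hsz.trans ?_⟩
  calc 2 ^ (25 * (m + 1) ^ 2 + 79 * (m + 1) + 67) ≤ 2 ^ (m * (25 * m + 215)) := by
        refine Nat.pow_le_pow_right (by norm_num) ?_
        nlinarith
    _ = (2 ^ m) ^ (25 * m + 215) := by rw [pow_mul]
    _ ≤ n ^ (25 * m + 215) := Nat.pow_le_pow_left h2 _

/-- The set whose maximum is the cost for the machines with the property `P`: the sizes `s` such
that, for some 1-limited automaton `M` of size at most `n` over some finite input alphabet that has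
the property `P`, `s` is the least size of a deterministic 1-limited automaton accepting the same
language as `M` (under the convention `cv`). -/
def costsFor (P : (A : Type) → Mach A → Prop) (cv : Bool) (n : ℕ) : Set ℕ :=
  {s | ∃ (A : Type) (_ : Finite A) (M : LA A), P A M.toMach ∧ M.toMach.size ≤ n ∧
    IsLeast {t | ∃ D : LA A, D.toMach.Det ∧ D.toMach.lang cv = M.toMach.lang cv ∧
      D.toMach.size = t} s}

theorem costsFor_le {cv : Bool} {n s : ℕ} (hn : 4 ≤ n)
    (h : s ∈ costsFor (fun _ M => LetterDet M) cv n) : s ≤ n ^ (25 * Nat.log 2 n + 215) := by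
  obtain ⟨A, fA, M, hM, hs, hl⟩ := h
  obtain ⟨D, hD, hL, hsz⟩ := upper_letterDet M hM cv n hn hs
  exact (hl.2 ⟨D, hD, hL cv, rfl⟩).trans hsz

theorem main_letterDet (cv : Bool) (n : ℕ) (hn : 4 ≤ n) :
    ∃ d, IsGreatest (costsFor (fun _ M => LetterDet M) cv n) d ∧
      d ≤ n ^ (25 * Nat.log 2 n + 215) := by
  have hbdd : BddAbove (costsFor (fun _ M => LetterDet M) cv n) :=
    ⟨_, fun s hs => costsFor_le hn hs⟩
  have hne : (costsFor (fun _ M => LetterDet M) cv n).Nonempty := by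
    let M : LA Empty := ⟨⟨Unit, Empty, fun _ _ => ∅, (), ∅⟩, inferInstance, inferInstance⟩
    have hM : M.toMach.size ≤ n := by
      have h1 : Nat.card M.toMach.Q = 1 := Nat.card_unique (α := Unit)
      have h2 : Nat.card (Sym Empty M.toMach.W) = 2 := by
        have := card_sym Empty Empty
        simpa using this
      have h3 : Nat.card {t : (M.toMach.Q × Sym Empty M.toMach.W) ×
          (M.toMach.Q × (Empty ⊕ M.toMach.W) × Bool) // t.2 ∈ M.toMach.δ t.1.1 t.1.2} = 0 := by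
        have : IsEmpty {t : (M.toMach.Q × Sym Empty M.toMach.W) ×
          (M.toMach.Q × (Empty ⊕ M.toMach.W) × Bool) // t.2 ∈ M.toMach.δ t.1.1 t.1.2} :=
          ⟨fun t => t.2⟩
        exact Nat.card_of_isEmpty
      have h4 : M.toMach.F.ncard = 0 := Set.ncard_empty _
      unfold Mach.size
      rw [h1, h2, h3, h4]
      simp
      omega
    have hM2 : LetterDet M.toMach := ⟨fun a => a.elim, fun _ a => a.elim⟩
    have hne : {t | ∃ D : LA Empty, D.toMach.Det ∧ D.toMach.lang cv = M.toMach.lang cv ∧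
        D.toMach.size = t}.Nonempty := by
      obtain ⟨D, hD, hL, _⟩ := upper_letterDet M hM2 cv n hn hM
      exact ⟨_, D, hD, hL cv, rfl⟩
    exact ⟨sInf _, Empty, inferInstance, M, hM2, hM, Nat.sInf_mem hne, fun t ht => Nat.sInf_le ht⟩
  have hmem := Nat.sSup_mem hne hbdd
  exact ⟨sSup _, ⟨hmem, fun s hs => le_csSup hbdd hs⟩, costsFor_le hn hmem⟩

end Pool.Agent.P0036f5w
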