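import Pool.Agent.Lib.P0036f5v2.Defs

/-!
# Machines that never rewrite: transition tables of the prefixes

`Tab M w i s s'`: entering the cell `i` in state `s` the machine can leave the cells `0, …, i` to the
right in state `s'`.  `Ini M w i s'`: it can enter the cell `i + 1` for the first time in state `s'`.
-/

set_option autoImplicit false

namespace Pool.Agent.P0036f5w

open Pool.Agent.P0036f5v2 Relation

theorem rtg_mono {ι : Type} {R R' : ι → ι → Prop} (h : ∀ a b, R a b → R' a b) {x y : ι}
    (hxy : ReflTransGen R x y) : ReflTransGen R' x y := by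
  induction hxy with
  | refl => exact ReflTransGen.refl
  | tail _ h2 ih => exact ih.tail (h _ _ h2)

variable {A : Type} (M : Mach A)

/-- no transition changes the scanned symbol: two-way nondeterministic finite automata -/
def NeverRewrites : Prop :=
  ∀ q s, ∀ x ∈ M.δ q s, s ≠ Sym.lend → s ≠ Sym.rend → Sym.ofW x.2.1 = s

/-- a possible move from state `q` on the symbol `g` in direction `d` to state `q'` -/
def mv (q : M.Q) (g : Sym A M.W) (d : Bool) (q' : M.Q) : Prop := ∃ x, (q', x, d) ∈ M.δ q g

/-- one move on the unchanged tape -/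
def MStep (w : List A) (c c' : ℕ × M.Q) : Prop :=
  c.1 ≤ w.length + 1 ∧ ∃ d, mv M c.2 (M.initTape w c.1) d c'.2 ∧ (c.1 = 0 → d = true) ∧
    c'.1 = if d = true then c.1 + 1 else c.1 - 1

theorem initTape_inp (w : List A) {j : ℕ} (h1 : 1 ≤ j) (h2 : j ≤ w.length) :
    M.initTape w j = Sym.inp (w[j - 1]'(by omega)) := by
  unfold Mach.initTape
  rw [if_neg (by omega), List.getElem?_eq_getElem (by omega)]

theorem initTape_rend (w : List A) {j : ℕ} (h : w.length < j) : M.initTape w j = Sym.rend := by
  unfold Mach.initTape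
  rw [if_neg (by omega), List.getElem?_eq_none (by omega)]

theorem initTape_zero (w : List A) : M.initTape w 0 = Sym.lend := by
  unfold Mach.initTape
  rw [if_pos rfl]

variable {M}

theorem lang_iff (hM : NeverRewrites M) (cv : Bool) (w : List A) :
    w ∈ M.lang cv ↔ ∃ f ∈ M.F, ReflTransGen (MStep M w) (1, M.qI) (w.length + 2, f) := by
  constructor
  · rintro ⟨c, hr, hp, hF⟩
    have key : ∀ c : M.Cfg, ReflTransGen (M.Step cv w.length) (M.init w) c →
        c.tape = M.initTape w ∧ ReflTransGen (MStep M w) (1, M.qI) (c.pos, c.st) := by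
      intro c hc
      induction hc with
      | refl => exact ⟨rfl, ReflTransGen.refl⟩
      | @tail b c _ hbc ih =>
        obtain ⟨ht, hb⟩ := ih
        obtain ⟨h1, x, d, h2, h3, h4, h5, h6, -⟩ := hbc
        rw [ht] at h2
        refine ⟨?_, hb.tail ⟨h1, d, ⟨x, h2⟩, h3, h4⟩⟩
        by_cases hv : 1 ≤ b.pos ∧ b.pos ≤ w.length ∧ b.pos ∉ b.seen
        · have h7 := initTape_inp M w hv.1 hv.2.1
          have h8 := hM _ _ _ h2 (by rw [h7]; exact fun h => by cases h)
            (by rw [h7]; exact fun h => by cases h)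
          rw [h5 hv, ht]
          have h9 : Sym.ofW x = M.initTape w b.pos := h8
          rw [h9, Function.update_eq_self]
        · rw [(h6 hv).1, ht]
    obtain ⟨-, h⟩ := key c hr
    rw [hp] at h
    exact ⟨c.st, hF, h⟩
  · rintro ⟨f, hF, hr⟩
    have key : ∀ p : ℕ × M.Q, ReflTransGen (MStep M w) (1, M.qI) p →
        ∃ c : M.Cfg, ReflTransGen (M.Step cv w.length) (M.init w) c ∧ c.pos = p.1 ∧ c.st = p.2 ∧
          c.tape = M.initTape w := by
      intro p hp
      induction hp with
      | refl => exact ⟨M.init w, ReflTransGen.refl, rfl, rfl, rfl⟩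
      | @tail b p _ hbp ih =>
        obtain ⟨c, hc, h1, h2, h3⟩ := ih
        obtain ⟨h4, d, ⟨x, h5⟩, h6, h7⟩ := hbp
        refine ⟨⟨p.2, p.1, c.tape, insert c.pos c.seen⟩, hc.tail ?_, rfl, rfl, h3⟩
        refine ⟨by rw [h1]; exact h4, x, d, ?_, ?_, ?_, ?_, ?_, rfl⟩
        · rw [h2, h3, h1]
          exact h5
        · rw [h1]
          exact h6
        · rw [h1]
          exact h7
        · rintro ⟨h8, h9, -⟩
          have h10 := initTape_inp M w h8 h9
          have h11 : Sym.ofW x = M.initTape w c.pos := by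
            rw [← h1] at h5
            exact hM _ _ _ h5 (by rw [h10]; exact fun h => by cases h)
              (by rw [h10]; exact fun h => by cases h)
          show c.tape = _
          rw [h3, h11, Function.update_eq_self]
        · intro _
          refine ⟨rfl, fun _ h8 h9 => ?_⟩
          rw [h3, h1] at h8 h9 ⊢
          exact hM _ _ _ h5 h8 h9
    obtain ⟨c, hc, h1, h2, -⟩ := key _ hr
    exact ⟨c, hc, h1, by rw [h2]; exact hF⟩

variable (M)

/-- moves from the cells `0, …, i` -/
def StepL (w : List A) (i : ℕ) (c c' : ℕ × M.Q) : Prop := c.1 ≤ i ∧ MStep M w c c'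

/-- the table of the cells `0, …, i` -/
def Tab (w : List A) (i : ℕ) (s s' : M.Q) : Prop :=
  ReflTransGen (StepL M w i) (i, s) (i + 1, s')

/-- the states in which cell `i + 1` can be entered for the first time -/
def Ini (w : List A) (i : ℕ) (s' : M.Q) : Prop :=
  ReflTransGen (StepL M w i) (1, M.qI) (i + 1, s')

/-- the graph of the window of the cells `i + 1, …, i + L` -/
def WE (w : List A) (i L : ℕ) (x y : ℕ × M.Q) : Prop :=
  (x.1 = 0 ∧ y.1 = 1 ∧ Tab M w i x.2 y.2) ∨
    (1 ≤ x.1 ∧ x.1 ≤ L ∧ ∃ d, mv M x.2 (M.initTape w (i + x.1)) d y.2 ∧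
      y.1 = if d = true then x.1 + 1 else x.1 - 1)

variable {M}

theorem stepL_mono {w : List A} {i j : ℕ} (h : i ≤ j) {c c' : ℕ × M.Q}
    (hc : ReflTransGen (StepL M w i) c c') : ReflTransGen (StepL M w j) c c' :=
  rtg_mono (fun _ _ h1 => ⟨h1.1.trans h, h1.2⟩) hc

theorem we_sound {w : List A} {i L : ℕ} (hL : i + L ≤ w.length + 1) {x y : ℕ × M.Q}
    (h : ReflTransGen (WE M w i L) x y) :
    ReflTransGen (StepL M w (i + L)) (i + x.1, x.2) (i + y.1, y.2) := by
  induction h with
  | refl => exact ReflTransGen.refl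
  | @tail y z _ hyz ih =>
    refine ih.trans ?_
    rcases hyz with ⟨h1, h2, h3⟩ | ⟨h1, h2, d, h3, h4⟩
    · rw [h1, h2]
      exact stepL_mono (by omega) h3
    · refine ReflTransGen.single ⟨by show i + y.1 ≤ i + L; omega, ?_⟩
      refine ⟨by show i + y.1 ≤ _; omega, d, h3, fun h => ?_, ?_⟩
      · have h' : i + y.1 = 0 := h
        omega
      · show i + z.1 = if d = true then i + y.1 + 1 else i + y.1 - 1
        rw [h4]
        split_ifs <;> omega

theorem window {w : List A} {i L : ℕ} {s' : M.Q} {c : ℕ × M.Q}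
    (h : ReflTransGen (StepL M w (i + L)) c (i + L + 1, s')) :
    (∀ j, 1 ≤ j → c.1 = i + j → ReflTransGen (WE M w i L) (j, c.2) (L + 1, s')) ∧
      (c.1 ≤ i → ∃ s0, ReflTransGen (StepL M w i) c (i + 1, s0) ∧
        ReflTransGen (WE M w i L) (1, s0) (L + 1, s')) := by
  induction h using ReflTransGen.head_induction_on with
  | refl =>
    refine ⟨fun j _ h2 => ?_, fun h1 => ?_⟩
    · have h2' : i + L + 1 = i + j := h2
      have h3 : j = L + 1 := by omega
      rw [h3]
    · have h1' : i + L + 1 ≤ i := h1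
      omega
  | @head a c hac _ ih =>
    obtain ⟨h1, h2, d, h3, h4, h5⟩ := hac
    refine ⟨fun j hj haj => ?_, fun hai => ?_⟩
    · have hjL : j ≤ L := by omega
      rw [haj] at h3 h5
      cases d with
      | true =>
        simp only [if_true] at h5
        have h6 := ih.1 (j + 1) (by omega) (by omega)
        have e1 : WE M w i L (j, a.2) (j + 1, c.2) := Or.inr ⟨hj, hjL, true, h3, by simp⟩
        exact ReflTransGen.head e1 h6
      | false =>
        simp only [Bool.false_eq_true, if_false] at h5
        by_cases hj1 : j = 1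
        · subst hj1
          have hci : c.1 = i := by omega
          obtain ⟨s0, h6, h7⟩ := ih.2 (by omega)
          have e1 : WE M w i L (1, a.2) (0, c.2) := Or.inr ⟨le_rfl, hjL, false, h3, by simp⟩
          have e2 : WE M w i L (0, c.2) (1, s0) := by
            refine Or.inl ⟨rfl, rfl, ?_⟩
            have : c = (i, c.2) := by rw [← hci]
            rw [this] at h6
            exact h6
          exact ReflTransGen.head e1 (ReflTransGen.head e2 h7)
        · have h6 := ih.1 (j - 1) (by omega) (by omega)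
          have e1 : WE M w i L (j, a.2) (j - 1, c.2) := Or.inr ⟨hj, hjL, false, h3, by simp⟩
          exact ReflTransGen.head e1 h6
    · have hs : StepL M w i a c := ⟨hai, h2, d, h3, h4, h5⟩
      by_cases hc : c.1 ≤ i
      · obtain ⟨s0, h6, h7⟩ := ih.2 hc
        exact ⟨s0, ReflTransGen.head hs h6, h7⟩
      · have hci : c.1 = i + 1 := by
          cases d <;> simp at h5 <;> omega
        refine ⟨c.2, ?_, ih.1 1 le_rfl hci⟩
        have : c = (i + 1, c.2) := by rw [← hci]
        rw [this] at hs
        exact ReflTransGen.single hs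

theorem tab_window {w : List A} {i L : ℕ} (h1 : 1 ≤ L) (hL : i + L ≤ w.length + 1)
    {s s' : M.Q} :
    Tab M w (i + L) s s' ↔ ReflTransGen (WE M w i L) (L, s) (L + 1, s') :=
  ⟨fun h => (window h).1 L h1 rfl, fun h => we_sound hL h⟩

theorem ini_window {w : List A} {i L : ℕ} (hL : i + L ≤ w.length + 1) {s' : M.Q} :
    Ini M w (i + L) s' ↔ ∃ s0, Ini M w i s0 ∧ ReflTransGen (WE M w i L) (1, s0) (L + 1, s') := by
  constructor
  · intro h
    rcases Nat.eq_zero_or_pos i with hi | hi
    · subst hi
      exact ⟨M.qI, ReflTransGen.refl, (window h).1 1 le_rfl (by simp)⟩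
    · exact (window h).2 hi
  · rintro ⟨s0, h1, h2⟩
    exact (stepL_mono (by omega) h1).trans (we_sound hL h2)

theorem tab_zero {w : List A} {s s' : M.Q} : Tab M w 0 s s' ↔ mv M s Sym.lend true s' := by
  constructor
  · intro h
    rcases h.cases_head with h | ⟨c, ⟨-, -, d, h3, h4, h5⟩, h6⟩
    · exact absurd (congrArg Prod.fst h) (by simp)
    · have hd : d = true := h4 rfl
      subst hd
      have h3' : mv M s (M.initTape w 0) true c.2 := h3
      rw [initTape_zero] at h3'
      rcases h6.cases_head with h | ⟨c', h7, -⟩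
      · rw [h] at h3'
        exact h3'
      · have h8 := h7.1
        rw [h5] at h8
        simp at h8
  · intro h
    refine ReflTransGen.single ⟨le_rfl, Nat.zero_le _, true, ?_, fun _ => rfl, by simp⟩
    show mv M s (M.initTape w 0) true s'
    rw [initTape_zero]
    exact h

theorem ini_zero {w : List A} {s' : M.Q} : Ini M w 0 s' ↔ s' = M.qI := by
  constructor
  · intro h
    rcases h.cases_head with h | ⟨c, h, -⟩
    · exact (congrArg Prod.snd h).symm
    · have := h.1
      simp at this
  · intro h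
    rw [h]
    exact ReflTransGen.refl

theorem mem_lang_iff (hM : NeverRewrites M) (cv : Bool) (w : List A) :
    w ∈ M.lang cv ↔ ∃ f ∈ M.F, Ini M w (w.length + 1) f := by
  rw [lang_iff hM cv w]
  constructor
  · rintro ⟨f, hF, h⟩
    exact ⟨f, hF, rtg_mono (fun _ _ h1 => ⟨h1.1, h1⟩) h⟩
  · rintro ⟨f, hF, h⟩
    exact ⟨f, hF, rtg_mono (fun _ _ h1 => h1.2) h⟩

end Pool.Agent.P0036f5w
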