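import Pool.Agent.Lib.P0036f5v2.Savitch
import Pool.Agent.Lib.P0036f5w.PathT
import Pool.Agent.Lib.P0036f5w.Two

/-!
# The block program of a machine that never rewrites

The input is cut into blocks of length `B = K * K + K`, `K` the number of states.  The bits written
in a block encode the transition table of the cells to the left of the block, and the set of the
states in which the block can be entered for the first time.
-/

set_option autoImplicit false

namespace Pool.Agent.P0036f5w

open Pool.Agent.P0036f5v2 Relation Classical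

variable {A : Type} (M : Mach A) (K : ℕ) (st : ℕ → M.Q) (ix : M.Q → ℕ)

/-- edges of the window graph -/
noncomputable def edgeT (b0 cl : Bool) (L r : ℕ) (x y : ℕ × M.Q) : DT (Option (A × Bool)) :=
  if x.1 = 0 then
    if y.1 = 1 then
      if b0 = true then .ret (decide (mv M x.2 Sym.lend true y.2))
      else askbit (r - (ix x.2 * K + ix y.2))
    else .ret false
  else if x.1 ≤ L then
    .ask (r + 1 - x.1) fun z => .ret (decide (∃ a b, z = some (a, b) ∧
      ∃ d, mv M x.2 (Sym.inp a) d y.2 ∧ y.1 = if d = true then x.1 + 1 else x.1 - 1))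
  else if x.1 = L + 1 ∧ cl = true then
    .ret (decide (∃ d, mv M x.2 Sym.rend d y.2 ∧ y.1 = if d = true then x.1 + 1 else x.1 - 1))
  else .ret false

/-- the node with number `u` -/
def node (u : ℕ) : ℕ × M.Q := (u / K, st (u % K))

/-- the length of the blocks -/
def bl : ℕ := K * K + K

/-- the number of nodes -/
def nV : ℕ := (2 * bl K + 2) * K

/-- paths in the window graph -/
noncomputable def pathE (κ : ℕ) (b0 cl : Bool) (L r : ℕ) (x y : ℕ × M.Q) :
    DT (Option (A × Bool)) :=
  pathT (edgeT M K ix b0 cl L r) (node M K st) (nV K) κ x y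

/-- the property encoded by the bit number `b` at the boundary `i` -/
def tbit (w : List A) (i b : ℕ) : Prop :=
  if b / K < K then Tab M w i (st (b / K)) (st (b % K)) else Ini M w i (st (b % K))

/-- the property encoded by the bit number `b` at the boundary `0` -/
def tbit0 (b : ℕ) : Prop :=
  if b / K < K then mv M (st (b / K)) Sym.lend true (st (b % K)) else st (b % K) = M.qI

/-- the bit of the letter with index `i` -/
noncomputable def bitW (w : List A) (i : ℕ) : Bool :=
  decide (tbit M K st w (bl K * (i / bl K)) (i % bl K))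

/-- acceptance from the node `x`, along the last `r` letters and the right end-marker -/
noncomputable def accE (κ : ℕ) (b0 : Bool) (r : ℕ) (x : ℕ × M.Q) : DT (Option (A × Bool)) :=
  .orN (fun y => if st y ∈ M.F then pathE M K st ix κ b0 true r r x (r + 2, st y)
    else .ret false) K

/-- the block program -/
noncomputable def twoProg (κ : ℕ) : Prog A where
  nxt := fun r => if r + 1 < 2 * bl K then r + 1 else bl K
  b0 := decide (tbit0 M K st 0)
  bit := fun r =>
    if r < bl K then .ret (decide (tbit0 M K st r))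
    else if (r - bl K) / K < K then
      pathE M K st ix κ false false (bl K) r (bl K, st ((r - bl K) / K))
        (bl K + 1, st ((r - bl K) % K))
    else .orN (fun x => (askbit (r - (K * K + x))).and
      (pathE M K st ix κ false false (bl K) r (1, st x) (bl K + 1, st ((r - bl K) % K)))) K
  acc := fun r =>
    if r < bl K then accE M K st ix κ true r (1, M.qI)
    else .orN (fun x => (askbit (r - (K * K + x))).and (accE M K st ix κ false r (1, st x))) K

variable {M K st ix}

theorem tbit_zero (w : List A) (b : ℕ) : tbit M K st w 0 b ↔ tbit0 M K st b := by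
  unfold tbit tbit0
  split_ifs
  · exact tab_zero
  · exact ini_zero

/-- the phase after `i` letters -/
theorem ph_twoProg (κ : ℕ) (hK : 0 < K) (i : ℕ) :
    (twoProg M K st ix κ).ph i = if i < bl K then i else bl K + i % bl K := by
  have hN : 0 < bl K := by unfold bl; omega
  induction i with
  | zero => simp [Prog.ph, hN]
  | succ i ih =>
    rw [Prog.ph, ih]
    simp only [twoProg]
    generalize bl K = N at hN ⊢
    have hm : i % N < N := Nat.mod_lt _ hN
    have hmod1 : i % N + 1 = N → (i + 1) % N = 0 := by
      intro h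
      have h2 := Nat.div_add_mod i N
      have h3 : i + 1 = N * (i / N + 1) := by
        rw [Nat.mul_add, Nat.mul_one]; omega
      rw [h3, Nat.mul_mod_right]
    have hmod2 : i % N + 1 ≠ N → (i + 1) % N = i % N + 1 := by
      intro h
      have h2 := Nat.div_add_mod i N
      have h3 : i + 1 = N * (i / N) + (i % N + 1) := by omega
      rw [h3, Nat.mul_add_mod, Nat.mod_eq_of_lt (by omega)]
    by_cases h1 : i < N
    · rw [if_pos h1]
      by_cases h2 : i + 1 < N
      · rw [if_pos h2, if_pos (by omega)]
      · rw [if_neg h2]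
        have hi : i + 1 = N := by omega
        by_cases h3 : i + 1 < 2 * N
        · rw [if_pos h3, hi, Nat.mod_self]; rfl
        · omega
    · rw [if_neg h1]
      have h2 : ¬ (i + 1 < N) := by omega
      rw [if_neg h2]
      by_cases h3 : i % N + 1 = N
      · rw [hmod1 h3, if_neg (by omega)]; rfl
      · rw [hmod2 h3, if_pos (by omega)]; omega

theorem ix_lt (hix : ∀ s, ix s < K) (s s' : M.Q) : ix s * K + ix s' < K * K := by
  have h1 := hix s
  have h2 := hix s'
  calc ix s * K + ix s' < ix s * K + K := by omega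
    _ = (ix s + 1) * K := by ring
    _ ≤ K * K := Nat.mul_le_mul_right _ h1

theorem nd_edgeT_le [Finite A] (b0 cl : Bool) (L r : ℕ) (x y : ℕ × M.Q) :
    (edgeT M K ix b0 cl L r x y).nd ≤ 1 := by
  unfold edgeT
  split_ifs
  · simp [DT.nd_ret]
  · exact nd_askbit_le _
  · simp [DT.nd_ret]
  · unfold DT.nd DT.asks
    simp [DT.asks]
  · simp [DT.nd_ret]
  · simp [DT.nd_ret]

theorem within_edgeT (hix : ∀ s, ix s < K) {b0 : Bool} (cl : Bool) {L r : ℕ} (hL : L ≤ r)
    (hb : b0 = false → K * K ≤ r) (x y : ℕ × M.Q) :
    (edgeT M K ix b0 cl L r x y).Within r := by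
  unfold edgeT
  split_ifs with h1 h2 h3 h4 h5
  · trivial
  · have h6 := ix_lt hix x.2 y.2
    have h7 := hb (by simpa using h3)
    exact within_askbit (by omega) (by omega)
  · trivial
  · exact ⟨by omega, by omega, fun _ => trivial⟩
  · trivial
  · trivial

theorem eval_edgeT {w : List A} {β : ℕ → Bool} {n i L r : ℕ} {b0 cl : Bool}
    (hix : ∀ s, ix s < K) (hn : n ≤ w.length)
    (hir : i + r = n) (hL : L ≤ r) (hcl : cl = true → i + L = w.length) (h0 : b0 = true → i = 0)
    (ht : b0 = false → K * K ≤ r ∧ ∀ s s', β (i + (ix s * K + ix s')) = decide (Tab M w i s s'))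
    (x y : ℕ × M.Q) :
    (edgeT M K ix b0 cl L r x y).eval (Prog.view w β n) = true ↔
      WE M w i (if cl = true then L + 1 else L) x y := by
  unfold edgeT WE
  by_cases h1 : x.1 = 0
  · rw [if_pos h1]
    have hno : ¬ (1 ≤ x.1 ∧ x.1 ≤ (if cl = true then L + 1 else L) ∧
        ∃ d, mv M x.2 (M.initTape w (i + x.1)) d y.2 ∧
          y.1 = if d = true then x.1 + 1 else x.1 - 1) := by
      rintro ⟨h, -⟩
      omega
    rw [or_iff_left hno]
    by_cases h2 : y.1 = 1
    · rw [if_pos h2]
      by_cases h3 : b0 = true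
      · rw [if_pos h3, h0 h3, tab_zero]
        simp [DT.eval, h1, h2]
      · rw [if_neg h3]
        obtain ⟨h4, h5⟩ := ht (by simpa using h3)
        have h6 := ix_lt hix x.2 y.2
        rw [eval_askbit_view _ _ _ _ (by omega)]
        have e1 : n - (r - (ix x.2 * K + ix y.2)) = i + (ix x.2 * K + ix y.2) := by omega
        rw [e1, h5]
        simp [h1, h2]
    · rw [if_neg h2]
      simp [DT.eval, h2]
  · rw [if_neg h1]
    have hno : ¬ (x.1 = 0 ∧ y.1 = 1 ∧ Tab M w i x.2 y.2) := fun h => h1 h.1
    rw [or_iff_right hno]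
    by_cases h2 : x.1 ≤ L
    · rw [if_pos h2]
      have h3 : x.1 ≤ (if cl = true then L + 1 else L) := by split_ifs <;> omega
      have h4 : 1 ≤ x.1 := by omega
      have h5 : i + x.1 - 1 < w.length := by omega
      have h6 := initTape_inp M w (j := i + x.1) (by omega) (by omega)
      have h7 : Prog.view w β n (r + 1 - x.1) = some (w[i + x.1 - 1], β (i + x.1 - 1)) := by
        have e1 : n - (r + 1 - x.1) = i + x.1 - 1 := by omega
        simp [Prog.view, Prog.cellv, e1, List.getElem?_eq_getElem h5]
      simp only [DT.eval, decide_eq_true_eq]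
      rw [h7, h6]
      constructor
      · rintro ⟨a, b, h8, h9⟩
        have h10 : w[i + x.1 - 1] = a := congrArg Prod.fst (Option.some.inj h8)
        rw [h10]
        exact ⟨h4, h3, h9⟩
      · rintro ⟨-, -, h9⟩
        exact ⟨_, _, rfl, h9⟩
    · rw [if_neg h2]
      by_cases h3 : x.1 = L + 1 ∧ cl = true
      · rw [if_pos h3]
        have h4 : M.initTape w (i + x.1) = Sym.rend := by
          have := hcl h3.2
          exact initTape_rend M w (by omega)
        rw [h4]
        simp only [DT.eval, decide_eq_true_eq, h3.2, if_true]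
        constructor
        · intro h5
          exact ⟨by omega, by omega, h5⟩
        · rintro ⟨-, -, h5⟩
          exact h5
      · rw [if_neg h3]
        simp only [DT.eval, Bool.false_eq_true, false_iff]
        rintro ⟨-, h5, -⟩
        apply h3
        by_cases h6 : cl = true
        · rw [if_pos h6] at h5
          exact ⟨by omega, h6⟩
        · rw [if_neg h6] at h5
          omega

theorem we_le {w : List A} {i L : ℕ} {x y : ℕ × M.Q} (hx : x.1 ≤ L + 1)
    (h : ReflTransGen (WE M w i L) x y) : y.1 ≤ L + 1 := by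
  induction h with
  | refl => exact hx
  | @tail y z _ hyz ih =>
    rcases hyz with ⟨h1, h2, h3⟩ | ⟨h1, h2, d, h3, h4⟩
    · omega
    · rw [h4]
      split_ifs <;> omega

/-- correctness of the path trees -/
theorem eval_pathE {w : List A} {β : ℕ → Bool} {n i L r : ℕ} {b0 cl : Bool}
    (hix : ∀ s, ix s < K) (hst : ∀ s, st (ix s) = s) (hn : n ≤ w.length)
    (hir : i + r = n) (hL : L ≤ r) (hcl : cl = true → i + L = w.length) (h0 : b0 = true → i = 0)
    (ht : b0 = false → K * K ≤ r ∧ ∀ s s', β (i + (ix s * K + ix s')) = decide (Tab M w i s s'))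
    (hr : L < 2 * bl K) {κ : ℕ} (hκ : nV K ≤ 2 ^ κ) {x y : ℕ × M.Q} (hx : x.1 ≤ L + 1) :
    (pathE M K st ix κ b0 cl L r x y).eval (Prog.view w β n) = true ↔
      ReflTransGen (WE M w i (if cl = true then L + 1 else L)) x y := by
  have hER : ER (edgeT M K ix b0 cl L r) (Prog.view w β n) =
      WE M w i (if cl = true then L + 1 else L) := by
    funext x y
    exact propext (eval_edgeT hix hn hir hL hcl h0 ht x y)
  unfold pathE
  rw [eval_pathT (V := nV K) (κ := κ) (v := Prog.view w β n) _ _ ?_ hκ, hER]
  intro z hz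
  rw [hER] at hz
  have h1 : z.1 ≤ (if cl = true then L + 1 else L) + 1 := by
    refine we_le ?_ hz
    split_ifs <;> omega
  have h2 : z.1 < 2 * bl K + 2 := by
    split_ifs at h1 <;> omega
  have h3 := hix z.2
  refine ⟨z.1 * K + ix z.2, ?_, ?_⟩
  · unfold nV
    calc z.1 * K + ix z.2 < z.1 * K + K := by omega
      _ = (z.1 + 1) * K := by ring
      _ ≤ (2 * bl K + 2) * K := Nat.mul_le_mul_right _ h2
  · unfold node
    have h4 : (z.1 * K + ix z.2) / K = z.1 := by
      rw [Nat.mul_comm, Nat.mul_add_div (by omega), Nat.div_eq_of_lt h3, Nat.add_zero]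
    have h5 : (z.1 * K + ix z.2) % K = ix z.2 := by
      rw [Nat.mul_comm, Nat.mul_add_mod, Nat.mod_eq_of_lt h3]
    rw [h4, h5, hst]

theorem eval_accE {w : List A} {β : ℕ → Bool} {i r : ℕ} {b0 : Bool}
    (hix : ∀ s, ix s < K) (hst : ∀ s, st (ix s) = s)
    (hir : i + r = w.length) (h0 : b0 = true → i = 0)
    (ht : b0 = false → K * K ≤ r ∧ ∀ s s', β (i + (ix s * K + ix s')) = decide (Tab M w i s s'))
    (hr : r < 2 * bl K) {κ : ℕ} (hκ : nV K ≤ 2 ^ κ) (s : M.Q) :
    (accE M K st ix κ b0 r (1, s)).eval (Prog.view w β w.length) = true ↔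
      ∃ f ∈ M.F, ReflTransGen (WE M w i (r + 1)) (1, s) (r + 2, f) := by
  have key : ∀ f, (pathE M K st ix κ b0 true r r (1, s) (r + 2, f)).eval
      (Prog.view w β w.length) = true ↔ ReflTransGen (WE M w i (r + 1)) (1, s) (r + 2, f) := by
    intro f
    rw [eval_pathE hix hst le_rfl hir le_rfl (fun _ => hir) h0 ht hr hκ
      (by show 1 ≤ r + 1; omega)]
    simp
  unfold accE
  rw [DT.eval_orN]
  constructor
  · rintro ⟨y, hy, h⟩
    split_ifs at h with h1
    · exact ⟨_, h1, (key _).1 h⟩
    · simp [DT.eval] at h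
  · rintro ⟨f, hf, h⟩
    refine ⟨ix f, hix f, ?_⟩
    rw [hst, if_pos hf]
    exact (key f).2 h

theorem within_pathE (hix : ∀ s, ix s < K) (κ : ℕ) {b0 : Bool} (cl : Bool) {L r : ℕ} (hL : L ≤ r)
    (hb : b0 = false → K * K ≤ r) (x y : ℕ × M.Q) :
    (pathE M K st ix κ b0 cl L r x y).Within r :=
  within_pathT _ _ _ (fun x y => within_edgeT hix cl hL hb x y) κ x y

theorem within_accE (hix : ∀ s, ix s < K) (κ : ℕ) {b0 : Bool} {r : ℕ}
    (hb : b0 = false → K * K ≤ r) (x : ℕ × M.Q) :
    (accE M K st ix κ b0 r x).Within r := by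
  refine DT.within_orN _ _ fun y _ => ?_
  split_ifs
  · exact within_pathE hix κ true le_rfl hb _ _
  · trivial

theorem within_bit (hix : ∀ s, ix s < K) (κ r : ℕ) :
    ((twoProg M K st ix κ).bit r).Within r := by
  simp only [twoProg]
  split_ifs with h h1
  · trivial
  · exact within_pathE hix κ false (by omega) (fun _ => by unfold bl at h; omega) _ _
  · refine DT.within_orN _ _ fun x hx => DT.within_and ?_ ?_
    · unfold bl at h
      exact within_askbit (by omega) (by omega)
    · exact within_pathE hix κ false (by omega) (fun _ => by unfold bl at h; omega) _ _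

theorem within_acc (hix : ∀ s, ix s < K) (κ r : ℕ) :
    ((twoProg M K st ix κ).acc r).Within r := by
  simp only [twoProg]
  split_ifs with h
  · exact within_accE hix κ (fun h => by simp at h) _
  · refine DT.within_orN _ _ fun x hx => DT.within_and ?_ ?_
    · unfold bl at h
      exact within_askbit (by omega) (by omega)
    · exact within_accE hix κ (fun _ => by unfold bl at h; omega) _

theorem nd_pathE_le [Finite A] (κ : ℕ) (b0 cl : Bool) (L r : ℕ) (x y : ℕ × M.Q) :
    (pathE M K st ix κ b0 cl L r x y).nd ≤ (2 * nV K) ^ κ := by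
  have := nd_pathT_le (edgeT M K ix b0 cl L r) (node M K st) (nV K) (c := 1)
    (fun x y => nd_edgeT_le b0 cl L r x y) κ x y
  rwa [Nat.mul_one] at this

theorem nd_accE_le [Finite A] (κ : ℕ) (b0 : Bool) (r : ℕ) (x : ℕ × M.Q) :
    (accE M K st ix κ b0 r x).nd ≤ K * (2 * nV K) ^ κ := by
  refine DT.nd_orN_le _ K _ fun y _ => ?_
  split_ifs
  · exact nd_pathE_le κ _ _ _ _ _ _
  · simp [DT.nd_ret]

theorem nd_bit_le [Finite A] (hK : 0 < K) (κ r : ℕ) :
    ((twoProg M K st ix κ).bit r).nd ≤ K * (1 + (2 * nV K) ^ κ) := by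
  simp only [twoProg]
  split_ifs with h h1
  · simp [DT.nd_ret]
  · refine (nd_pathE_le κ _ _ _ _ _ _).trans ?_
    calc (2 * nV K) ^ κ ≤ 1 + (2 * nV K) ^ κ := by omega
      _ ≤ K * (1 + (2 * nV K) ^ κ) := Nat.le_mul_of_pos_left _ hK
  · refine DT.nd_orN_le _ K _ fun x _ => (DT.nd_and_le _ _).trans ?_
    exact Nat.add_le_add (nd_askbit_le _) (nd_pathE_le κ _ _ _ _ _ _)

theorem nd_acc_le [Finite A] (hK : 0 < K) (κ r : ℕ) :
    ((twoProg M K st ix κ).acc r).nd ≤ K * (1 + K * (2 * nV K) ^ κ) := by
  simp only [twoProg]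
  split_ifs with h
  · refine (nd_accE_le κ _ _ _).trans ?_
    calc K * (2 * nV K) ^ κ ≤ 1 + K * (2 * nV K) ^ κ := by omega
      _ ≤ K * (1 + K * (2 * nV K) ^ κ) := Nat.le_mul_of_pos_left _ hK
  · refine DT.nd_orN_le _ K _ fun x _ => (DT.nd_and_le _ _).trans ?_
    exact Nat.add_le_add (nd_askbit_le _) (nd_accE_le κ _ _ _)

/-- The machine of the block program accepts the language of `M`. -/
theorem twoProg_lang (hM : NeverRewrites M) (cv cv' : Bool) (hK : 0 < K)
    (hix : ∀ s, ix s < K) (hst : ∀ s, st (ix s) = s) {κ : ℕ} (hκ : nV K ≤ 2 ^ κ) :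
    (twoProg M K st ix κ).mach.lang cv = M.lang cv' := by
  have hN : 0 < bl K := by unfold bl; omega
  ext w
  -- the stored table
  have hq : ∀ i b, b < bl K → bl K ≤ i →
      bitW M K st w (bl K * (i / bl K - 1) + b) =
        decide (tbit M K st w (bl K * (i / bl K - 1)) b) := by
    intro i b hb _
    unfold bitW
    rw [Nat.mul_add_mod, Nat.mod_eq_of_lt hb, Nat.mul_add_div hN, Nat.div_eq_of_lt hb,
      Nat.add_zero]
  have htab : ∀ i, bl K ≤ i → ∀ s s', bitW M K st w (bl K * (i / bl K - 1) + (ix s * K + ix s')) =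
      decide (Tab M w (bl K * (i / bl K - 1)) s s') := by
    intro i hi s s'
    have h1 := ix_lt hix s s'
    have h2 := hix s'
    rw [hq i _ (by unfold bl; omega) hi]
    have h3 : (ix s * K + ix s') / K = ix s := by
      rw [Nat.mul_comm, Nat.mul_add_div hK, Nat.div_eq_of_lt h2, Nat.add_zero]
    have h4 : (ix s * K + ix s') % K = ix s' := by
      rw [Nat.mul_comm, Nat.mul_add_mod, Nat.mod_eq_of_lt h2]
    unfold tbit
    rw [h3, h4, if_pos (hix s), hst, hst]
  have hini : ∀ i, bl K ≤ i → ∀ x, x < K →
      bitW M K st w (bl K * (i / bl K - 1) + (K * K + x)) =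
        decide (Ini M w (bl K * (i / bl K - 1)) (st x)) := by
    intro i hi x hx
    rw [hq i _ (by unfold bl; omega) hi]
    have h3 : (K * K + x) / K = K := by
      rw [Nat.mul_add_div hK, Nat.div_eq_of_lt hx, Nat.add_zero]
    have h4 : (K * K + x) % K = x := by
      rw [Nat.mul_add_mod, Nat.mod_eq_of_lt hx]
    unfold tbit
    rw [h3, h4, if_neg (lt_irrefl K)]
  have hblock : ∀ i x : ℕ, i ≤ w.length → bl K ≤ i → x < K →
      (askbit (bl K + i % bl K - (K * K + x))).eval (Prog.view w (bitW M K st w) i) =
        decide (Ini M w (bl K * (i / bl K - 1)) (st x)) := by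
    intro i x hi hNi hx
    obtain ⟨a1, a2, a3⟩ := block_arith (bl K) hN i hNi
    have hx' : K * K + x < bl K := by unfold bl; omega
    rw [eval_askbit_view _ _ _ _ (by omega)]
    have e1 : i - (bl K + i % bl K - (K * K + x)) = bl K * (i / bl K - 1) + (K * K + x) := by
      omega
    rw [e1, hini i hNi x hx]
  rw [Prog.mem_lang _ cv w (bitW M K st w)]
  · -- acceptance
    rw [ph_twoProg κ hK, mem_lang_iff hM cv' w]
    by_cases hlt : w.length < bl K
    · rw [if_pos hlt]
      simp only [twoProg]
      rw [if_pos hlt, eval_accE hix hst (i := 0) (by omega) (fun _ => rfl)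
        (fun h => by simp at h) (by omega) hκ]
      have h1 : ∀ f, Ini M w (w.length + 1) f ↔
          ReflTransGen (WE M w 0 (w.length + 1)) (1, M.qI) (w.length + 2, f) := by
        intro f
        have h2 := ini_window (M := M) (w := w) (i := 0) (L := w.length + 1) (s' := f) (by omega)
        rw [Nat.zero_add] at h2
        rw [h2]
        constructor
        · rintro ⟨s0, h3, h4⟩
          rw [ini_zero] at h3
          rw [h3] at h4
          exact h4
        · intro h4
          exact ⟨M.qI, ini_zero.2 rfl, h4⟩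
      simp only [h1]
    · rw [if_neg hlt]
      push Not at hlt
      have hm := Nat.mod_lt w.length hN
      obtain ⟨a1, a2, a3⟩ := block_arith (bl K) hN w.length hlt
      have hr : ¬ (bl K + w.length % bl K < bl K) := by omega
      simp only [twoProg]
      rw [if_neg hr, DT.eval_orN]
      have hK2 : K * K ≤ bl K + w.length % bl K := by
        have : K * K ≤ bl K := by unfold bl; omega
        omega
      have hacc : ∀ s, (accE M K st ix κ false (bl K + w.length % bl K) (1, s)).eval
          (Prog.view w (bitW M K st w) w.length) = true ↔ ∃ f ∈ M.F,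
            ReflTransGen (WE M w (bl K * (w.length / bl K - 1)) (bl K + w.length % bl K + 1))
              (1, s) (bl K + w.length % bl K + 2, f) := by
        intro s
        exact eval_accE hix hst (by omega) (fun h => by simp at h)
          (fun _ => ⟨hK2, htab _ hlt⟩) (by omega) hκ s
      have hwin : ∀ f, Ini M w (w.length + 1) f ↔
          ∃ s0, Ini M w (bl K * (w.length / bl K - 1)) s0 ∧
            ReflTransGen (WE M w (bl K * (w.length / bl K - 1)) (bl K + w.length % bl K + 1))
              (1, s0) (bl K + w.length % bl K + 2, f) := by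
        intro f
        have h2 := ini_window (M := M) (w := w) (i := bl K * (w.length / bl K - 1))
          (L := bl K + w.length % bl K + 1) (s' := f) (by omega)
        have e1 : bl K * (w.length / bl K - 1) + (bl K + w.length % bl K + 1) = w.length + 1 := by
          omega
        rw [e1] at h2
        exact h2
      constructor
      · rintro ⟨x, hx, h⟩
        rw [DT.eval_and, Bool.and_eq_true, hblock _ _ le_rfl hlt hx, decide_eq_true_eq,
          hacc] at h
        obtain ⟨f, hf, h'⟩ := h.2
        exact ⟨f, hf, (hwin f).2 ⟨_, h.1, h'⟩⟩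
      · rintro ⟨f, hf, h⟩
        obtain ⟨s0, h1, h2⟩ := (hwin f).1 h
        refine ⟨ix s0, hix s0, ?_⟩
        rw [DT.eval_and, Bool.and_eq_true, hblock _ _ le_rfl hlt (hix s0), decide_eq_true_eq,
          hacc, hst]
        exact ⟨h1, f, hf, h2⟩
  · -- the initial bit
    show bitW M K st w 0 = decide (tbit0 M K st 0)
    unfold bitW
    rw [Nat.zero_div, Nat.mul_zero, Nat.zero_mod]
    exact decide_eq_decide.2 (tbit_zero w 0)
  · -- the bits
    intro i hi
    rw [ph_twoProg κ hK]
    by_cases hlt : i + 1 < bl K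
    · rw [if_pos hlt]
      simp only [twoProg]
      rw [if_pos hlt]
      refine ⟨trivial, ?_⟩
      show decide (tbit0 M K st (i + 1)) = bitW M K st w (i + 1)
      unfold bitW
      rw [Nat.mod_eq_of_lt hlt, Nat.div_eq_of_lt hlt, Nat.mul_zero]
      exact decide_eq_decide.2 (tbit_zero w (i + 1)).symm
    · rw [if_neg hlt]
      push Not at hlt
      have hm := Nat.mod_lt (i + 1) hN
      obtain ⟨a1, a2, a3⟩ := block_arith (bl K) hN (i + 1) hlt
      have hr : ¬ (bl K + (i + 1) % bl K < bl K) := by omega
      have hK2 : K * K ≤ bl K + (i + 1) % bl K := by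
        have : K * K ≤ bl K := by unfold bl; omega
        omega
      refine ⟨(within_bit hix κ _).mono a1, ?_⟩
      simp only [twoProg]
      rw [if_neg hr]
      have hsub : bl K + (i + 1) % bl K - bl K = (i + 1) % bl K := by omega
      rw [hsub]
      have hpath : ∀ x y : ℕ × M.Q, x.1 ≤ bl K + 1 →
          ((pathE M K st ix κ false false (bl K) (bl K + (i + 1) % bl K) x y).eval
            (Prog.view w (bitW M K st w) (i + 1)) = true ↔
          ReflTransGen (WE M w (bl K * ((i + 1) / bl K - 1)) (bl K)) x y) := by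
        intro x y hx
        have := eval_pathE (b0 := false) (cl := false) (κ := κ) (x := x) (y := y)
          (i := bl K * ((i + 1) / bl K - 1)) (L := bl K) (r := bl K + (i + 1) % bl K)
          (n := i + 1) (w := w) (β := bitW M K st w) hix hst hi (by omega) (by omega)
          (fun h => by simp at h) (fun h => by simp at h) (fun _ => ⟨hK2, htab _ hlt⟩)
          (by omega) hκ hx
        simpa using this
      have hbw : bitW M K st w (i + 1) =
          decide (tbit M K st w (bl K * ((i + 1) / bl K)) ((i + 1) % bl K)) := rfl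
      rw [Bool.eq_iff_iff, hbw, decide_eq_true_eq]
      unfold tbit
      by_cases hrow : (i + 1) % bl K / K < K
      · rw [if_pos hrow, if_pos hrow, ← a3, tab_window (by omega) (by omega)]
        exact hpath _ _ (by show bl K ≤ bl K + 1; omega)
      · rw [if_neg hrow, if_neg hrow, ← a3, ini_window (by omega), DT.eval_orN]
        constructor
        · rintro ⟨x, hx, h⟩
          rw [DT.eval_and, Bool.and_eq_true, hblock _ _ hi hlt hx, decide_eq_true_eq] at h
          exact ⟨_, h.1, (hpath _ _ (by show 1 ≤ bl K + 1; omega)).1 h.2⟩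
        · rintro ⟨s0, h1, h2⟩
          refine ⟨ix s0, hix s0, ?_⟩
          rw [DT.eval_and, Bool.and_eq_true, hblock _ _ hi hlt (hix s0), decide_eq_true_eq, hst]
          exact ⟨h1, (hpath _ _ (by show 1 ≤ bl K + 1; omega)).2 h2⟩
  · -- the acceptance tree looks only at visited cells
    rw [ph_twoProg κ hK]
    by_cases hlt : w.length < bl K
    · rw [if_pos hlt]
      exact within_acc hix κ _
    · rw [if_neg hlt]
      push Not at hlt
      obtain ⟨a1, a2, a3⟩ := block_arith (bl K) hN w.length hlt
      exact (within_acc hix κ _).mono a1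

end Pool.Agent.P0036f5w
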