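import Pool.Agent.Lib.P0036f5v2.Upper

/-!
# The size of the deterministic machine of a program
-/

set_option autoImplicit false

namespace Pool.Agent.P0036f5w

open Pool.Agent.P0036f5v2 Classical

section

variable {A : Type} (P : Prog A) (R D : ℕ)

/-- all trees that can occur -/
def trees : Set (DT (Option (A × Bool))) :=
  {.ret true, .ret false} ∪ ⋃ r ∈ Finset.range R, ((P.bit r).asks ∪ (P.acc r).asks)

theorem ret_mem_trees (b : Bool) : DT.ret b ∈ trees P R := by
  cases b
  · exact Or.inl (Or.inr rfl)
  · exact Or.inl (Or.inl rfl)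

theorem bit_mem_trees (r : ℕ) (hr : r < R) : P.bit r ∈ trees P R := by
  rcases DT.self_mem_asks (P.bit r) with h | ⟨b, hb⟩
  · exact Or.inr (Set.mem_biUnion (Finset.mem_coe.2 (Finset.mem_range.2 hr)) (Or.inl h))
  · rw [hb]; exact ret_mem_trees P R b

theorem acc_mem_trees (r : ℕ) (hr : r < R) : P.acc r ∈ trees P R := by
  rcases DT.self_mem_asks (P.acc r) with h | ⟨b, hb⟩
  · exact Or.inr (Set.mem_biUnion (Finset.mem_coe.2 (Finset.mem_range.2 hr)) (Or.inr h))
  · rw [hb]; exact ret_mem_trees P R b

theorem child_mem_trees {d : ℕ} {f : Option (A × Bool) → DT (Option (A × Bool))}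
    (h : DT.ask d f ∈ trees P R) (x : Option (A × Bool)) : f x ∈ trees P R := by
  rcases h with h | h
  · rcases h with h | h <;> simp at h
  · obtain ⟨r, hr, h⟩ := Set.mem_iUnion₂.1 h
    rcases h with h | h
    · rcases DT.asks_child h x with h' | ⟨b, hb⟩
      · exact Or.inr (Set.mem_biUnion hr (Or.inl h'))
      · rw [hb]; exact ret_mem_trees P R b
    · rcases DT.asks_child h x with h' | ⟨b, hb⟩
      · exact Or.inr (Set.mem_biUnion hr (Or.inr h'))
      · rw [hb]; exact ret_mem_trees P R b

theorem dist_of_mem_trees (hb : ∀ r < R, (P.bit r).Within D) (ha : ∀ r < R, (P.acc r).Within D)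
    {d : ℕ} {f : Option (A × Bool) → DT (Option (A × Bool))}
    (h : DT.ask d f ∈ trees P R) : d ≤ D := by
  rcases h with h | h
  · rcases h with h | h <;> simp at h
  · obtain ⟨r, hr, h⟩ := Set.mem_iUnion₂.1 h
    have hr' : r < R := Finset.mem_range.1 (Finset.mem_coe.1 hr)
    rcases h with h | h
    · exact DT.le_of_mem_asks (hb r hr') h
    · exact DT.le_of_mem_asks (ha r hr') h

theorem trees_finite [Finite A] : (trees P R).Finite := by
  refine Set.Finite.union (Set.toFinite _) ?_
  refine Set.Finite.biUnion (Finset.finite_toSet _) fun r _ => ?_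
  exact (DT.asks_finite _).union (DT.asks_finite _)

theorem trees_ncard_le [Finite A] (T : ℕ) (hT : ∀ r < R, (P.bit r).nd + (P.acc r).nd ≤ T) :
    (trees P R).ncard ≤ 2 + R * T := by
  unfold trees
  refine (Set.ncard_union_le _ _).trans (Nat.add_le_add ?_ ?_)
  · exact (Set.ncard_insert_le _ _).trans (by simp)
  · have key : ∀ s : Finset ℕ, (∀ r ∈ s, r < R) →
        (⋃ r ∈ s, ((P.bit r).asks ∪ (P.acc r).asks)).ncard ≤ s.card * T := by
      intro s
      induction s using Finset.induction_on with
      | empty => simp
      | insert a s ha ih =>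
        intro hs
        rw [Finset.set_biUnion_insert, Finset.card_insert_of_notMem ha, Nat.add_mul, Nat.one_mul,
          Nat.add_comm]
        refine (Set.ncard_union_le _ _).trans (Nat.add_le_add ?_
          (ih fun r hr => hs r (Finset.mem_insert_of_mem hr)))
        exact (Set.ncard_union_le _ _).trans (hT a (hs a (Finset.mem_insert_self a s)))
    have := key (Finset.range R) fun r hr => Finset.mem_range.1 hr
    rwa [Finset.card_range] at this

/-- the states that can occur -/
def states : Set (PSt A) :=
  (fun p : ℕ × Bool => PSt.ready p.1 p.2) '' (Set.Iio R ×ˢ Set.univ) ∪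
    (fun p : Bool × ℕ × DT (Option (A × Bool)) × ℕ => PSt.eval p.1 p.2.1 p.2.2.1 p.2.2.2) ''
      (Set.univ ×ˢ Set.Iio R ×ˢ trees P R ×ˢ Set.Iic (D + 2)) ∪ {.done}

theorem mem_states_ready {r : ℕ} {b : Bool} : PSt.ready r b ∈ states P R D ↔ r < R := by
  unfold states
  cases b <;> simp

theorem mem_states_eval {k : Bool} {r : ℕ} {t : DT (Option (A × Bool))} {h : ℕ} :
    PSt.eval k r t h ∈ states P R D ↔ r < R ∧ t ∈ trees P R ∧ h ≤ D + 2 := by
  unfold states
  simp

theorem mem_states_done : (PSt.done : PSt A) ∈ states P R D := Or.inr rfl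

theorem states_finite [Finite A] : (states P R D).Finite := by
  unfold states
  refine ((Set.Finite.image _ ?_).union (Set.Finite.image _ ?_)).union (Set.finite_singleton _)
  · exact (Set.finite_Iio _).prod Set.finite_univ
  · exact Set.finite_univ.prod ((Set.finite_Iio _).prod
      ((trees_finite P R).prod (Set.finite_Iic _)))

theorem states_ncard_le [Finite A] :
    (states P R D).ncard ≤ R * 2 + 2 * (R * ((trees P R).ncard * (D + 3))) + 1 := by
  unfold states
  refine (Set.ncard_union_le _ _).trans (Nat.add_le_add ?_ (by simp))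
  refine (Set.ncard_union_le _ _).trans (Nat.add_le_add ?_ ?_)
  · refine (Set.ncard_image_le ((Set.finite_Iio _).prod Set.finite_univ)).trans ?_
    rw [Set.ncard_prod]
    simp [Set.ncard_eq_toFinset_card']
  · refine (Set.ncard_image_le (Set.finite_univ.prod ((Set.finite_Iio _).prod
      ((trees_finite P R).prod (Set.finite_Iic _))))).trans ?_
    rw [Set.ncard_prod, Set.ncard_prod, Set.ncard_prod]
    simp [Set.ncard_eq_toFinset_card' (Set.Iio _), Set.ncard_eq_toFinset_card' (Set.Iic _)]

theorem states_closed (hn : ∀ r < R, P.nxt r < R) (hb : ∀ r < R, (P.bit r).Within D)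
    (ha : ∀ r < R, (P.acc r).Within D) : ∀ q ∈ states P R D, ∀ s,
    ∀ x ∈ P.mach.δ q s, x.1 ∈ states P R D := by
  intro q hq s x hx
  have hx' : P.tr q s = some x := hx
  match q, s with
  | .ready r b, .inp a =>
    simp only [Prog.tr, Option.some.injEq] at hx'
    rw [mem_states_ready] at hq
    subst hx'
    have h1 : P.nxt r < R := hn r hq
    exact (mem_states_eval P R D).2 ⟨h1, bit_mem_trees P R _ h1, by omega⟩
  | .ready r b, .rend =>
    simp only [Prog.tr, Option.some.injEq] at hx'
    rw [mem_states_ready] at hq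
    subst hx'
    exact (mem_states_eval P R D).2 ⟨hq, acc_mem_trees P R _ hq, by omega⟩
  | .ready _ _, .wrk _ => simp [Prog.tr] at hx'
  | .ready _ _, .lend => simp [Prog.tr] at hx'
  | .eval k r (.ret b) h, s =>
    rw [mem_states_eval] at hq
    simp only [Prog.tr] at hx'
    split_ifs at hx' with h1 h2 h3
    · simp only [Option.some.injEq] at hx'
      subst hx'
      exact mem_states_done P R D
    · simp only [Option.some.injEq] at hx'
      subst hx'
      exact (mem_states_ready P R D).2 hq.1
    · simp only [Option.some.injEq] at hx'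
      subst hx'
      exact (mem_states_eval P R D).2 ⟨hq.1, hq.2.1, by have := hq.2.2; omega⟩
  | .eval k r (.ask d f) h, s =>
    rw [mem_states_eval] at hq
    have hd := dist_of_mem_trees P R D hb ha hq.2.1
    simp only [Prog.tr] at hx'
    split_ifs at hx' with h1 h2
    · simp only [Option.some.injEq] at hx'
      subst hx'
      exact (mem_states_eval P R D).2 ⟨hq.1, hq.2.1, by omega⟩
    · simp only [Option.some.injEq] at hx'
      subst hx'
      exact (mem_states_eval P R D).2 ⟨hq.1, hq.2.1, by omega⟩
    · cases s with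
      | wrk y =>
        simp only [Option.some.injEq] at hx'
        subst hx'
        exact (mem_states_eval P R D).2
          ⟨hq.1, child_mem_trees P R hq.2.1 y, by omega⟩
      | inp _ => simp at hx'
      | lend => simp at hx'
      | rend => simp at hx'
  | .done, s =>
    simp only [Prog.tr, Option.some.injEq] at hx'
    subst hx'
    exact mem_states_done P R D

end

/-- The deterministic machine of a program with `R` phases which looks back at most `D` cells and
whose trees have at most `T` inner subtrees. -/
theorem exists_det_of_prog {A : Type} [Finite A] (P : Prog A) (R D T : ℕ) (hR : 0 < R)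
    (hn : ∀ r < R, P.nxt r < R) (hb : ∀ r < R, (P.bit r).Within D)
    (ha : ∀ r < R, (P.acc r).Within D) (hT : ∀ r < R, (P.bit r).nd + (P.acc r).nd ≤ T) :
    ∃ M : LA A, M.toMach.Det ∧ (∀ cv, M.toMach.lang cv = P.mach.lang cv) ∧
      M.toMach.size ≤ (R * 2 + 2 * (R * ((2 + R * T) * (D + 3))) + 1) * (15 * Nat.card A + 17) +
        (4 * Nat.card A + 4) := by
  have hI : P.mach.qI ∈ states P R D := (mem_states_ready P R D).2 hR
  let M' : Mach A := P.mach.restrict (states P R D) hI
  have fQ : Finite M'.Q := (states_finite P R D).to_subtype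
  have fW : Finite M'.W := inferInstanceAs (Finite (Option (A × Bool)))
  have hdet : M'.Det := Mach.restrict_det _ _ hI P.mach_det
  refine ⟨⟨M', fQ, fW⟩, hdet, ?_, ?_⟩
  · intro cv
    exact Mach.restrict_lang _ cv _ hI (states_closed P R D hn hb ha)
  · show M'.size ≤ _
    refine (M'.size_le_of_det hdet).trans ?_
    have hW : Nat.card M'.W = Nat.card A * 2 + 1 := by
      show Nat.card (Option (A × Bool)) = _
      rw [Finite.card_option, Nat.card_prod]
      simp
    rw [card_sym A M'.W, hW]
    have hQ : Nat.card M'.Q = (states P R D).ncard := rfl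
    rw [hQ]
    have h0 := states_ncard_le P R D
    have h1 := trees_ncard_le P R T hT
    have h2 : (states P R D).ncard ≤ R * 2 + 2 * (R * ((2 + R * T) * (D + 3))) + 1 := by
      refine h0.trans ?_
      have h3 : (trees P R).ncard * (D + 3) ≤ (2 + R * T) * (D + 3) := Nat.mul_le_mul_right _ h1
      have h4 := Nat.mul_le_mul_left R h3
      omega
    set a := Nat.card A with ha_def
    set K := (states P R D).ncard with hK
    have h5 : 2 * K + a + (a + (a * 2 + 1) + 2) + 1 + 5 * (K * (a + (a * 2 + 1) + 2)) =
        K * (15 * a + 17) + (4 * a + 4) := by ring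
    rw [h5]
    exact Nat.add_le_add_right (Nat.mul_le_mul_right _ h2) _

end Pool.Agent.P0036f5w
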