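import Pool.Agent.Lib.P0036f5w.Two

/-!
# Machines whose written symbols depend only on the letter

At its first visit a cell with the letter `a` gets the symbol `f a`.  This contains the machines that
never rewrite (`f a = a`) and the machines that mark every cell they visit.  A configuration is
described by the number `j` of the first cell not visited, the head position `x ≤ j` and the state.

`TabM M f cv w i s s'`: with the cells `0, …, i` visited, entering the cell `i` in state `s` the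
machine can leave them to the right in state `s'`.  `IniM M f cv w i s'`: it can enter the cell
`i + 1` for the first time in state `s'`.
-/

set_option autoImplicit false

namespace Pool.Agent.P0036f5w

open Pool.Agent.P0036f5v2 Relation

variable {A : Type} (M : Mach A)

/-- the symbol written in a cell at its first visit depends only on the letter in this cell -/
def LetterDet : Prop := ∃ f : A → A ⊕ M.W, ∀ q a, ∀ x ∈ M.δ q (Sym.inp a), x.2.1 = f a

theorem letterDet_of_neverRewrites (h : NeverRewrites M) : LetterDet M := by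
  refine ⟨Sum.inl, fun q a x hx => ?_⟩
  have h1 := h q _ x hx (fun h => by cases h) (fun h => by cases h)
  rcases x with ⟨q', y, d⟩
  cases y with
  | inl b =>
    have h2 : Sym.inp b = (Sym.inp a : Sym A M.W) := h1
    exact congrArg Sum.inl (Sym.inp.inj h2)
  | inr b =>
    have h2 : Sym.wrk b = (Sym.inp a : Sym A M.W) := h1
    cases h2

/-- a possible move from state `q` on the frozen symbol `g` in direction `d` to state `q'` -/
def mvf (cv : Bool) (q : M.Q) (g : Sym A M.W) (d : Bool) (q' : M.Q) : Prop :=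
  ∃ x, (q', x, d) ∈ M.δ q g ∧ OkW cv g x

variable (f : A → A ⊕ M.W) (cv : Bool)

/-- the symbol in the cell `x` if the cells before `j` have been visited -/
def symM (w : List A) (j x : ℕ) : Sym A M.W :=
  if x = 0 then Sym.lend else
    match w[x - 1]? with
    | some a => if x < j then Sym.ofW (f a) else Sym.inp a
    | none => Sym.rend

/-- a possible move in the cell `x` if the cells before `j` have been visited, `x ≤ j` -/
def mvM (w : List A) (j x : ℕ) (q : M.Q) (d : Bool) (q' : M.Q) : Prop :=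
  if 1 ≤ x ∧ x ≤ w.length ∧ x = j then mv M q (symM M f w j x) d q'
  else mvf M cv q (symM M f w j x) d q'

/-- one move; `c = (j, x, q)`: first cell not visited, head position, state -/
def JStep (w : List A) (c c' : ℕ × ℕ × M.Q) : Prop :=
  c.2.1 ≤ w.length + 1 ∧ ∃ d, mvM M f cv w c.1 c.2.1 c.2.2 d c'.2.2 ∧
    (c.2.1 = 0 → d = true) ∧
    c'.2.1 = (if d = true then c.2.1 + 1 else c.2.1 - 1) ∧
    c'.1 = if c.2.1 = c.1 then c.1 + 1 else c.1

variable {M f cv}

theorem jstep_le {w : List A} {c c' : ℕ × ℕ × M.Q} (h : JStep M f cv w c c') (hc : c.2.1 ≤ c.1) :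
    c'.2.1 ≤ c'.1 := by
  obtain ⟨-, d, -, -, h1, h2⟩ := h
  rw [h1, h2]
  split_ifs <;> omega

theorem symM_update (w : List A) {j : ℕ} (h1 : 1 ≤ j) (h2 : j ≤ w.length) :
    Function.update (symM M f w j) j (Sym.ofW (f (w[j - 1]'(by omega)))) =
      symM M f w (j + 1) := by
  funext x
  by_cases hx : x = j
  · subst hx
    rw [Function.update_self]
    unfold symM
    rw [if_neg (by omega), List.getElem?_eq_getElem (by omega)]
    simp
  · rw [Function.update_of_ne hx]
    unfold symM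
    by_cases h3 : x = 0
    · rw [if_pos h3, if_pos h3]
    · rw [if_neg h3, if_neg h3]
      cases w[x - 1]? with
      | none => rfl
      | some a =>
        simp only
        by_cases h4 : x < j
        · rw [if_pos h4, if_pos (by omega)]
        · rw [if_neg h4, if_neg (by omega)]

theorem symM_congr (w : List A) {j j' : ℕ} (h1 : w.length + 1 ≤ j) (h2 : w.length + 1 ≤ j') :
    symM M f w j = symM M f w j' := by
  funext x
  unfold symM
  by_cases h3 : x = 0
  · rw [if_pos h3, if_pos h3]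
  · rw [if_neg h3, if_neg h3]
    cases hx : w[x - 1]? with
    | none => rfl
    | some a =>
      have h4 : x - 1 < w.length := by
        by_contra h5
        rw [List.getElem?_eq_none (by omega)] at hx
        cases hx
      simp only
      rw [if_pos (by omega), if_pos (by omega)]

theorem symM_init (w : List A) : symM M f w 1 = M.initTape w := by
  funext x
  unfold symM Mach.initTape
  by_cases h3 : x = 0
  · rw [if_pos h3, if_pos h3]
  · rw [if_neg h3, if_neg h3]
    cases w[x - 1]? with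
    | none => rfl
    | some a =>
      simp only
      rw [if_neg (by omega)]

theorem symM_inp (w : List A) {j x : ℕ} (h1 : 1 ≤ x) (h2 : x ≤ w.length) :
    symM M f w j x = if x < j then Sym.ofW (f (w[x - 1]'(by omega))) else
      Sym.inp (w[x - 1]'(by omega)) := by
  unfold symM
  rw [if_neg (by omega), List.getElem?_eq_getElem (by omega)]

/-- the invariant: the configuration `c` is described by `(j, x, q)` -/
def Desc (M : Mach A) (f : A → A ⊕ M.W) (w : List A) (c : M.Cfg) (p : ℕ × ℕ × M.Q) : Prop :=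
  c.pos = p.2.1 ∧ c.st = p.2.2 ∧ p.2.1 ≤ p.1 ∧ 1 ≤ p.1 ∧ c.tape = symM M f w p.1 ∧
    ∀ x, 1 ≤ x → x ≤ w.length → (x ∈ c.seen ↔ x < p.1)

theorem desc_step (hf : ∀ q a, ∀ x ∈ M.δ q (Sym.inp a), x.2.1 = f a) {w : List A}
    {c c' : M.Cfg} {p : ℕ × ℕ × M.Q} (hc : Desc M f w c p) (h : M.Step cv w.length c c') :
    ∃ p', JStep M f cv w p p' ∧ Desc M f w c' p' := by
  obtain ⟨h1, h2, h3, h4, h5, h6⟩ := hc
  obtain ⟨g1, x, d, g2, g3, g4, g5, g6, g7⟩ := h
  have hfresh : (1 ≤ c.pos ∧ c.pos ≤ w.length ∧ c.pos ∉ c.seen) ↔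
      (1 ≤ p.2.1 ∧ p.2.1 ≤ w.length ∧ p.2.1 = p.1) := by
    rw [← h1]
    constructor
    · rintro ⟨a1, a2, a3⟩
      rw [h6 _ a1 a2] at a3
      exact ⟨a1, a2, by omega⟩
    · rintro ⟨a1, a2, a3⟩
      refine ⟨a1, a2, ?_⟩
      rw [h6 _ a1 a2]
      omega
  refine ⟨(if p.2.1 = p.1 then p.1 + 1 else p.1, c'.pos, c'.st), ⟨by rw [← h1]; exact g1, d, ?_,
    by rw [← h1]; exact g3, by rw [← h1]; exact g4, rfl⟩, ?_⟩
  · show mvM M f cv w p.1 p.2.1 p.2.2 d c'.st
    unfold mvM
    rw [h5, h1, h2] at g2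
    by_cases h7 : 1 ≤ p.2.1 ∧ p.2.1 ≤ w.length ∧ p.2.1 = p.1
    · rw [if_pos h7]
      exact ⟨x, g2⟩
    · rw [if_neg h7]
      have h8 := (g6 (fun h => h7 (hfresh.1 h))).2
      rw [h5, h1] at h8
      exact ⟨x, g2, h8⟩
  · refine ⟨rfl, rfl, ?_, ?_, ?_, ?_⟩
    · show c'.pos ≤ _
      rw [g4, h1]
      split_ifs <;> omega
    · show 1 ≤ (if p.2.1 = p.1 then p.1 + 1 else p.1)
      split_ifs <;> omega
    · show c'.tape = symM M f w (if p.2.1 = p.1 then p.1 + 1 else p.1)
      by_cases h7 : 1 ≤ p.2.1 ∧ p.2.1 ≤ w.length ∧ p.2.1 = p.1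
      · rw [g5 (hfresh.2 h7), if_pos h7.2.2, h5, h1, h7.2.2]
        have h8 : symM M f w p.1 p.1 = Sym.inp (w[p.1 - 1]'(by omega)) := by
          rw [symM_inp w (by omega) (by omega), if_neg (lt_irrefl _)]
        have h9 : x = f (w[p.1 - 1]'(by omega)) := by
          rw [h5, h1, h7.2.2, h8] at g2
          exact hf _ _ _ g2
        rw [h9]
        exact symM_update w (by omega) (by omega)
      · rw [(g6 (fun h => h7 (hfresh.1 h))).1, h5]
        by_cases h8 : p.2.1 = p.1
        · rw [if_pos h8]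
          refine symM_congr w ?_ ?_ <;> omega
        · rw [if_neg h8]
    · intro y hy1 hy2
      show y ∈ c'.seen ↔ y < (if p.2.1 = p.1 then p.1 + 1 else p.1)
      rw [g7, Set.mem_insert_iff, h6 y hy1 hy2, h1]
      split_ifs <;> omega

theorem step_desc (hf : ∀ q a, ∀ x ∈ M.δ q (Sym.inp a), x.2.1 = f a) {w : List A}
    {c : M.Cfg} {p p' : ℕ × ℕ × M.Q} (hc : Desc M f w c p) (h : JStep M f cv w p p') :
    ∃ c', M.Step cv w.length c c' ∧ Desc M f w c' p' := by
  have hc' := hc
  obtain ⟨h1, h2, h3, h4, h5, h6⟩ := hc'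
  obtain ⟨g1, d, g2, g3, g4, g5⟩ := h
  have hfresh : (1 ≤ c.pos ∧ c.pos ≤ w.length ∧ c.pos ∉ c.seen) ↔
      (1 ≤ p.2.1 ∧ p.2.1 ≤ w.length ∧ p.2.1 = p.1) := by
    rw [← h1]
    constructor
    · rintro ⟨a1, a2, a3⟩
      rw [h6 _ a1 a2] at a3
      exact ⟨a1, a2, by omega⟩
    · rintro ⟨a1, a2, a3⟩
      refine ⟨a1, a2, ?_⟩
      rw [h6 _ a1 a2]
      omega
  have hmain : ∃ x, (p'.2.2, x, d) ∈ M.δ c.st (c.tape c.pos) ∧
      (¬ (1 ≤ c.pos ∧ c.pos ≤ w.length ∧ c.pos ∉ c.seen) → OkW cv (c.tape c.pos) x) := by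
    unfold mvM at g2
    rw [h5, h1, h2]
    split_ifs at g2 with h7
    · obtain ⟨x, g2⟩ := g2
      exact ⟨x, g2, fun h => absurd (h1 ▸ hfresh.2 h7) (h1 ▸ h)⟩
    · obtain ⟨x, g2, g2'⟩ := g2
      exact ⟨x, g2, fun _ => g2'⟩
  obtain ⟨x, k1, k2⟩ := hmain
  by_cases h7 : 1 ≤ c.pos ∧ c.pos ≤ w.length ∧ c.pos ∉ c.seen
  · have hs : M.Step cv w.length c ⟨p'.2.2, p'.2.1,
        Function.update c.tape c.pos (Sym.ofW x), insert c.pos c.seen⟩ :=
      ⟨by rw [h1]; exact g1, x, d, k1, by rw [h1]; exact g3, by rw [h1]; exact g4,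
        fun _ => rfl, fun h => absurd h7 h, rfl⟩
    obtain ⟨p'', j1, j2⟩ := desc_step hf hc hs
    refine ⟨_, hs, ?_⟩
    have e : p'' = p' := by
      obtain ⟨-, d', -, -, -, e3⟩ := j1
      have e1 := j2.1
      have e2 := j2.2.1
      refine Prod.ext (e3.trans g5.symm) (Prod.ext e1.symm e2.symm)
    subst e
    exact j2
  · have hs : M.Step cv w.length c ⟨p'.2.2, p'.2.1, c.tape, insert c.pos c.seen⟩ :=
      ⟨by rw [h1]; exact g1, x, d, k1, by rw [h1]; exact g3, by rw [h1]; exact g4,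
        fun h => absurd h h7, fun _ => ⟨rfl, k2 h7⟩, rfl⟩
    obtain ⟨p'', j1, j2⟩ := desc_step hf hc hs
    refine ⟨_, hs, ?_⟩
    have e : p'' = p' := by
      obtain ⟨-, d', -, -, -, e3⟩ := j1
      have e1 := j2.1
      have e2 := j2.2.1
      refine Prod.ext (e3.trans g5.symm) (Prod.ext e1.symm e2.symm)
    subst e
    exact j2

theorem desc_init (w : List A) : Desc M f w (M.init w) (1, 1, M.qI) := by
  refine ⟨rfl, rfl, le_rfl, le_rfl, (symM_init w).symm, fun x hx _ => ?_⟩
  show x ∈ (∅ : Set ℕ) ↔ x < 1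
  simp
  omega

theorem lang_iffM (hf : ∀ q a, ∀ x ∈ M.δ q (Sym.inp a), x.2.1 = f a) (w : List A) :
    w ∈ M.lang cv ↔ ∃ s ∈ M.F, ∃ j,
      ReflTransGen (JStep M f cv w) (1, 1, M.qI) (j, w.length + 2, s) := by
  constructor
  · rintro ⟨c, hr, hp, hF⟩
    have key : ∀ c : M.Cfg, ReflTransGen (M.Step cv w.length) (M.init w) c →
        ∃ p, Desc M f w c p ∧ ReflTransGen (JStep M f cv w) (1, 1, M.qI) p := by
      intro c hc
      induction hc with
      | refl => exact ⟨_, desc_init w, ReflTransGen.refl⟩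
      | @tail b c _ hbc ih =>
        obtain ⟨p, h1, h2⟩ := ih
        obtain ⟨p', h3, h4⟩ := desc_step hf h1 hbc
        exact ⟨p', h4, h2.tail h3⟩
    obtain ⟨p, h1, h2⟩ := key c hr
    refine ⟨c.st, hF, p.1, ?_⟩
    have e : p = (p.1, w.length + 2, c.st) :=
      Prod.ext rfl (Prod.ext (h1.1.symm.trans hp) h1.2.1.symm)
    rw [← e]
    exact h2
  · rintro ⟨s, hF, j, hr⟩
    have key : ∀ p, ReflTransGen (JStep M f cv w) (1, 1, M.qI) p →
        ∃ c : M.Cfg, ReflTransGen (M.Step cv w.length) (M.init w) c ∧ Desc M f w c p := by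
      intro p hp
      induction hp with
      | refl => exact ⟨M.init w, ReflTransGen.refl, desc_init w⟩
      | @tail b p _ hbp ih =>
        obtain ⟨c, h1, h2⟩ := ih
        obtain ⟨c', h3, h4⟩ := step_desc hf h2 hbp
        exact ⟨c', h1.tail h3, h4⟩
    obtain ⟨c, h1, h2⟩ := key _ hr
    exact ⟨c, h1, h2.1, by rw [h2.2.1]; exact hF⟩

end Pool.Agent.P0036f5w
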